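import Mathlib

set_option autoImplicit false

namespace Pool.Agent.H89.Mor

variable {α : Type}

/-- image of a word under a morphism -/
def img (σ : α → List α) (w : List α) : List α := w.flatMap σ

/-- iterated image of a word -/
def itw (σ : α → List α) (k : ℕ) (w : List α) : List α := (img σ)^[k] w

section basic
variable (σ : α → List α)

@[simp] lemma img_nil : img σ [] = [] := rfl
@[simp] lemma img_append (v w : List α) : img σ (v ++ w) = img σ v ++ img σ w := by
  simp [img]
@[simp] lemma img_cons (a : α) (w : List α) : img σ (a :: w) = σ a ++ img σ w := by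
  simp [img]
lemma img_singleton (a : α) : img σ [a] = σ a := by simp

@[simp] lemma itw_zero (w : List α) : itw σ 0 w = w := rfl
lemma itw_succ (k : ℕ) (w : List α) : itw σ (k + 1) w = itw σ k (img σ w) := rfl
lemma itw_succ' (k : ℕ) (w : List α) : itw σ (k + 1) w = img σ (itw σ k w) := by
  simp [itw, Function.iterate_succ_apply']
lemma itw_add (j k : ℕ) (w : List α) : itw σ (j + k) w = itw σ j (itw σ k w) := by
  simp [itw, Function.iterate_add_apply]
@[simp] lemma itw_one (w : List α) : itw σ 1 w = img σ w := rfl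
@[simp] lemma itw_nil (k : ℕ) : itw σ k [] = [] := by
  induction k with
  | zero => rfl
  | succ k ih => rw [itw_succ, img_nil, ih]
@[simp] lemma itw_append (k : ℕ) (v w : List α) : itw σ k (v ++ w) = itw σ k v ++ itw σ k w := by
  induction k generalizing v w with
  | zero => rfl
  | succ k ih => rw [itw_succ, img_append, ih]; rfl
lemma itw_cons (k : ℕ) (a : α) (w : List α) : itw σ k (a :: w) = itw σ k [a] ++ itw σ k w := by
  rw [← itw_append]; rfl
lemma itw_eq_flatMap (k : ℕ) (w : List α) : itw σ k w = w.flatMap (fun c => itw σ k [c]) := by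
  induction w with
  | nil => simp
  | cons a w ih => rw [itw_cons, ih]; simp

lemma img_infix {v w : List α} (h : v <:+: w) : img σ v <:+: img σ w := by
  obtain ⟨a, b, rfl⟩ := h
  exact ⟨img σ a, img σ b, by simp⟩
lemma img_prefix {v w : List α} (h : v <+: w) : img σ v <+: img σ w := by
  obtain ⟨b, rfl⟩ := h
  exact ⟨img σ b, by simp⟩
lemma img_suffix {v w : List α} (h : v <:+ w) : img σ v <:+ img σ w := by
  obtain ⟨b, rfl⟩ := h
  exact ⟨img σ b, by simp⟩
lemma itw_infix (k : ℕ) {v w : List α} (h : v <:+: w) : itw σ k v <:+: itw σ k w := by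
  obtain ⟨a, b, rfl⟩ := h
  exact ⟨itw σ k a, itw σ k b, by simp⟩
lemma itw_prefix (k : ℕ) {v w : List α} (h : v <+: w) : itw σ k v <+: itw σ k w := by
  obtain ⟨b, rfl⟩ := h
  exact ⟨itw σ k b, by simp⟩
lemma itw_suffix (k : ℕ) {v w : List α} (h : v <:+ w) : itw σ k v <:+ itw σ k w := by
  obtain ⟨b, rfl⟩ := h
  exact ⟨itw σ k b, by simp⟩

end basic

/-! ### splitting infixes -/

lemma infix_append_cases {w l₁ l₂ : List α} (h : w <:+: l₁ ++ l₂) :
    w <:+: l₁ ∨ w <:+: l₂ ∨ ∃ p q, w = p ++ q ∧ p ≠ [] ∧ q ≠ [] ∧ p <:+ l₁ ∧ q <+: l₂ := by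
  obtain ⟨a, b, hab⟩ := h
  rw [List.append_assoc] at hab
  rcases List.append_eq_append_iff.1 hab with ⟨c, hc1, hc2⟩ | ⟨c, hc1, hc2⟩
  · -- l₁ = a ++ c, w ++ b = c ++ l₂
    rcases List.append_eq_append_iff.1 hc2 with ⟨d, hd1, hd2⟩ | ⟨d, hd1, hd2⟩
    · -- c = w ++ d
      left
      exact ⟨a, d, by rw [hc1, hd1]; simp⟩
    · -- w = c ++ d, l₂ = d ++ b
      by_cases hc : c = []
      · right; left
        subst hc
        simp only [List.nil_append] at hd1
        exact ⟨[], b, by rw [hd1, hd2]; simp⟩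
      by_cases hd : d = []
      · left
        subst hd
        simp only [List.append_nil] at hd1
        exact ⟨a, [], by rw [hc1, hd1]; simp⟩
      · right; right
        exact ⟨c, d, hd1, hc, hd, ⟨a, hc1.symm⟩, ⟨b, hd2.symm⟩⟩
  · -- a = l₁ ++ c, l₂ = c ++ (w ++ b)
    right; left
    exact ⟨c, b, by rw [hc2]; simp⟩

lemma infix_flatMap_cases {f : α → List α} {w : List α} (hw : w ≠ []) :
    ∀ {l : List α}, w <:+: l.flatMap f →
      (∃ c ∈ l, w <:+: f c) ∨
      (∃ l₁ l₂ p q, l = l₁ ++ l₂ ∧ w = p ++ q ∧ p ≠ [] ∧ q ≠ [] ∧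
        p <:+ l₁.flatMap f ∧ q <+: l₂.flatMap f) := by
  intro l
  induction l with
  | nil =>
    intro h
    simp at h
    exact absurd h hw
  | cons a l ih =>
    intro h
    rw [List.flatMap_cons] at h
    rcases infix_append_cases h with h | h | ⟨p, q, h1, h2, h3, h4, h5⟩
    · left; exact ⟨a, by simp, h⟩
    · rcases ih h with ⟨c, hc, h'⟩ | ⟨l₁, l₂, p, q, e1, e2, h2, h3, h4, h5⟩
      · left; exact ⟨c, by simp [hc], h'⟩
      · right
        refine ⟨a :: l₁, l₂, p, q, by rw [e1]; rfl, e2, h2, h3, ?_, h5⟩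
        rw [List.flatMap_cons]
        exact h4.trans (List.suffix_append _ _)
    · right
      exact ⟨[a], l, p, q, rfl, h1, h2, h3, by simpa using h4, h5⟩

/-- an infix of a flatMap is inside one block, or is (suffix of block)(full blocks)(prefix of block) -/
lemma prefix_flatMap_decomp {f : α → List α} :
    ∀ {l y : List α}, y <+: l.flatMap f →
      ∃ x' q, x' <+: l ∧ y = x'.flatMap f ++ q ∧ (q = [] ∨ ∃ c, x' ++ [c] <+: l ∧ q <+: f c ∧ q ≠ f c) := by
  intro l
  induction l with
  | nil =>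
    intro y h
    simp at h
    exact ⟨[], [], by simp, by simp [h], Or.inl rfl⟩
  | cons a l ih =>
    intro y h
    rw [List.flatMap_cons] at h
    by_cases hlen : (f a).length ≤ y.length
    · have h1 : f a <+: y := List.prefix_of_prefix_length_le (List.prefix_append _ _) h hlen
      obtain ⟨y', rfl⟩ := h1
      have h2 : y' <+: l.flatMap f := (List.prefix_append_right_inj _).1 h
      obtain ⟨x', q, e1, e2, e3⟩ := ih h2
      refine ⟨a :: x', q, ?_, ?_, ?_⟩
      · exact (List.prefix_cons_inj _).2 e1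
      · rw [e2, List.flatMap_cons, List.append_assoc]
      · rcases e3 with e3 | ⟨c, e3, e4, e5⟩
        · exact Or.inl e3
        · exact Or.inr ⟨c, by simpa using (List.prefix_cons_inj a).2 e3, e4, e5⟩
    · push Not at hlen
      refine ⟨[], y, by simp, by simp, Or.inr ⟨a, by simp, ?_, ?_⟩⟩
      · exact List.prefix_of_prefix_length_le h (List.prefix_append _ _) hlen.le
      · intro he; rw [he] at hlen; exact lt_irrefl _ hlen

lemma suffix_flatMap_decomp {f : α → List α} {l y : List α} (h : y <:+ l.flatMap f) :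
      ∃ p x', x' <:+ l ∧ y = p ++ x'.flatMap f ∧ (p = [] ∨ ∃ c, c :: x' <:+ l ∧ p <:+ f c ∧ p ≠ f c) := by
  have h1 : y.reverse <+: (l.reverse).flatMap (fun c => (f c).reverse) := by
    have : (l.flatMap f).reverse = (l.reverse).flatMap (fun c => (f c).reverse) := by
      rw [List.reverse_flatMap]; rfl
    rw [← this]; exact List.reverse_prefix.2 h
  obtain ⟨x', q, e1, e2, e3⟩ := prefix_flatMap_decomp h1
  refine ⟨q.reverse, x'.reverse, ?_, ?_, ?_⟩
  · rw [← List.reverse_prefix, List.reverse_reverse]; exact e1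
  · have : y = (y.reverse).reverse := by simp
    rw [this, e2, List.reverse_append]
    congr 1
    rw [List.reverse_flatMap]
    congr 1
    funext c
    simp
  · rcases e3 with e3 | ⟨c, e3, e4, e5⟩
    · left; simp [e3]
    · right
      refine ⟨c, ?_, ?_, ?_⟩
      · rw [← List.reverse_prefix]; simpa using e3
      · rw [← List.reverse_prefix]; simpa using e4
      · intro he; apply e5
        rw [← he]; simp

lemma infix_flatMap_decomp {f : α → List α} {l y : List α} (h : y <:+: l.flatMap f) :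
    (∃ c ∈ l, y <:+: f c) ∨ ∃ p x' q, x' <:+: l ∧ y = p ++ x'.flatMap f ++ q ∧
      (p = [] ∨ ∃ c ∈ l, p <:+ f c) ∧ (q = [] ∨ ∃ c ∈ l, q <+: f c) := by
  by_cases hy : y = []
  · right
    exact ⟨[], [], [], List.nil_infix, by simp [hy], Or.inl rfl, Or.inl rfl⟩
  rcases infix_flatMap_cases hy h with h | ⟨l₁, l₂, p, q, e1, e2, h2, h3, h4, h5⟩
  · exact Or.inl h
  · right
    obtain ⟨p', x₁, a1, a2, a3⟩ := suffix_flatMap_decomp h4
    obtain ⟨x₂, q', b1, b2, b3⟩ := prefix_flatMap_decomp h5
    refine ⟨p', x₁ ++ x₂, q', ?_, ?_, ?_, ?_⟩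
    · obtain ⟨c, rfl⟩ := a1
      obtain ⟨d, rfl⟩ := b1
      exact ⟨c, d, by rw [e1]; simp⟩
    · rw [e2, a2, b2]; simp
    · rcases a3 with a3 | ⟨c, a3, a4, -⟩
      · exact Or.inl a3
      · refine Or.inr ⟨c, ?_, a4⟩
        rw [e1]; exact List.mem_append_left _ (a3.subset (by simp))
    · rcases b3 with b3 | ⟨c, b3, b4, -⟩
      · exact Or.inl b3
      · refine Or.inr ⟨c, ?_, b4⟩
        rw [e1]; exact List.mem_append_right _ (b3.subset (by simp))

/-! ### the infinite word -/

/-- window of `u` starting at `i` of length `n` -/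
def win (u : ℕ → α) (i n : ℕ) : List α := (List.range n).map (fun j => u (i + j))

@[simp] lemma win_length (u : ℕ → α) (i n : ℕ) : (win u i n).length = n := by simp [win]

lemma win_getElem (u : ℕ → α) (i n j : ℕ) (h : j < (win u i n).length) :
    (win u i n)[j] = u (i + j) := by simp [win]

lemma win_add (u : ℕ → α) (i m n : ℕ) : win u i (m + n) = win u i m ++ win u (i + m) n := by
  simp [win, List.range_add, Function.comp_def, Nat.add_assoc]

@[simp] lemma win_zero (u : ℕ → α) (i : ℕ) : win u i 0 = [] := by simp [win]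

lemma win_one (u : ℕ → α) (i : ℕ) : win u i 1 = [u i] := by simp [win]

/-- `w` is a factor of `u` -/
def Fac (u : ℕ → α) (w : List α) : Prop := ∃ i, win u i w.length = w

lemma Fac.of_infix {u : ℕ → α} {v w : List α} (hw : Fac u w) (h : v <:+: w) : Fac u v := by
  obtain ⟨i, hi⟩ := hw
  obtain ⟨a, b, rfl⟩ := h
  refine ⟨i + a.length, ?_⟩
  simp only [List.length_append] at hi
  rw [win_add, win_add] at hi
  have h1 := List.append_inj hi (by simp)
  have h2 := List.append_inj h1.1 (by simp)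
  exact h2.2

lemma Fac.ext_right {u : ℕ → α} {w : List α} (hw : Fac u w) : ∃ a, Fac u (w ++ [a]) := by
  obtain ⟨i, hi⟩ := hw
  refine ⟨u (i + w.length), i, ?_⟩
  rw [List.length_append, List.length_singleton, win_add, hi, win_one]

lemma fac_nil (u : ℕ → α) : Fac u [] := ⟨0, by simp⟩

lemma fac_win (u : ℕ → α) (i n : ℕ) : Fac u (win u i n) := ⟨i, by simp⟩

/-- `σ` generates `u`, and every letter occurs in `u` -/
structure Gen (u : ℕ → α) (σ : α → List α) : Prop where
  pre_iter : ∀ k, win u 0 (itw σ k [u 0]).length = itw σ k [u 0]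
  unb : ∀ m, ∃ k, m < (itw σ k [u 0]).length
  surj : ∀ a, ∃ i, u i = a

namespace Gen
variable {u : ℕ → α} {σ : α → List α}

lemma fac_iter (h : Gen u σ) (k : ℕ) : Fac u (itw σ k [u 0]) := ⟨0, h.pre_iter k⟩

lemma fac_iff (h : Gen u σ) {w : List α} : Fac u w ↔ ∃ k, w <:+: itw σ k [u 0] := by
  constructor
  · rintro ⟨i, hi⟩
    obtain ⟨k, hk⟩ := h.unb (i + w.length)
    refine ⟨k, ?_⟩
    have e : (itw σ k [u 0]).length = i + w.length + ((itw σ k [u 0]).length - (i + w.length)) := by
      omega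
    have := h.pre_iter k
    rw [e, win_add, win_add, Nat.zero_add, hi] at this
    exact ⟨_, _, this⟩
  · rintro ⟨k, hk⟩
    exact (h.fac_iter k).of_infix hk

lemma fac_img (h : Gen u σ) {w : List α} (hw : Fac u w) : Fac u (img σ w) := by
  obtain ⟨k, hk⟩ := h.fac_iff.1 hw
  refine h.fac_iff.2 ⟨k + 1, ?_⟩
  rw [itw_succ']
  exact img_infix σ hk

lemma fac_itw (h : Gen u σ) {w : List α} (hw : Fac u w) (k : ℕ) : Fac u (itw σ k w) := by
  induction k with
  | zero => exact hw
  | succ k ih => rw [itw_succ']; exact h.fac_img ih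

lemma fac_letter (h : Gen u σ) (a : α) : Fac u [a] := by
  obtain ⟨i, rfl⟩ := h.surj a
  exact ⟨i, by simp [win_one]⟩

lemma fac_itw_letter (h : Gen u σ) (a : α) (k : ℕ) : Fac u (itw σ k [a]) :=
  h.fac_itw (h.fac_letter a) k

lemma letter_mem (h : Gen u σ) (a : α) : ∃ k, a ∈ itw σ k [u 0] := by
  obtain ⟨k, hk⟩ := h.fac_iff.1 (h.fac_letter a)
  exact ⟨k, hk.subset (by simp)⟩

lemma prefix_or (h : Gen u σ) {v w : List α} (hv : win u 0 v.length = v) (hw : win u 0 w.length = w)
    (hl : v.length ≤ w.length) : v <+: w := by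
  obtain ⟨d, hd⟩ := Nat.exists_eq_add_of_le hl
  rw [← hw, hd, win_add, hv]
  exact List.prefix_append _ _

/-- images of prefixes of `u` are prefixes of `u` -/
lemma img_win (h : Gen u σ) (m : ℕ) : win u 0 (img σ (win u 0 m)).length = img σ (win u 0 m) := by
  obtain ⟨k, hk⟩ := h.unb m
  have h1 : win u 0 m <+: itw σ k [u 0] :=
    h.prefix_or (by simp) (h.pre_iter k) (by simpa using hk.le)
  have h2 : img σ (win u 0 m) <+: itw σ (k + 1) [u 0] := by
    rw [itw_succ']; exact img_prefix σ h1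
  obtain ⟨t, ht⟩ := h2
  have h3 := h.pre_iter (k + 1)
  rw [← ht, List.length_append, win_add] at h3
  exact (List.append_inj h3 (by simp)).1

lemma itw_win (h : Gen u σ) (j m : ℕ) : win u 0 (itw σ j (win u 0 m)).length = itw σ j (win u 0 m) := by
  induction j with
  | zero => simp
  | succ j ih =>
    rw [itw_succ']
    have := h.img_win (itw σ j (win u 0 m)).length
    rw [ih] at this
    exact this

/-- powers still generate `u` -/
lemma pow (h : Gen u σ) {P : ℕ} (hP : 0 < P) : Gen u (fun a => itw σ P [a]) := by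
  have key : ∀ k w, itw (fun a => itw σ P [a]) k w = itw σ (P * k) w := by
    intro k
    induction k with
    | zero => intro w; simp
    | succ k ih =>
      intro w
      rw [itw_succ, ih, Nat.mul_succ, itw_add]
      congr 1
      rw [itw_eq_flatMap σ P w]; rfl
  have h1 : (itw σ 1 [u 0]).length ≥ 1 := by
    by_contra hcon
    push Not at hcon
    have h0 : itw σ 1 [u 0] = [] := List.eq_nil_of_length_eq_zero (by omega)
    obtain ⟨k, hk⟩ := h.unb 1
    rcases k with _ | k
    · simp at hk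
    · rw [itw_add, h0] at hk
      simp at hk
  have hpre : [u 0] <+: itw σ 1 [u 0] :=
    h.prefix_or (v := [u 0]) (w := itw σ 1 [u 0]) (by simp [win_one]) (h.pre_iter 1) (by simpa using h1)
  have hmono : ∀ k, (itw σ k [u 0]).length ≤ (itw σ (k + 1) [u 0]).length := by
    intro k
    rw [itw_add]
    exact (itw_prefix σ k hpre).length_le
  refine ⟨fun k => ?_, fun m => ?_, h.surj⟩
  · rw [key]; exact h.pre_iter _
  · obtain ⟨k, hk⟩ := h.unb m
    refine ⟨k, ?_⟩
    rw [key]
    refine lt_of_lt_of_le hk ?_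
    have hm : Monotone (fun k => (itw σ k [u 0]).length) := monotone_nat_of_le_succ hmono
    exact hm (by nlinarith)

lemma itw_pow_eq (P k : ℕ) (w : List α) :
    itw (fun a => itw σ P [a]) k w = itw σ (P * k) w := by
  induction k generalizing w with
  | zero => simp
  | succ k ih =>
    rw [itw_succ, ih, Nat.mul_succ, itw_add]
    congr 1
    rw [itw_eq_flatMap σ P w]; rfl

end Gen

/-! ### levels -/

/-- every infix (length at least two) of an iterated image of a letter has a maximal level -/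
lemma level_split (σ : α → List α) {w : List α} (hw : 2 ≤ w.length) :
    ∀ (K : ℕ) (d : α), w <:+: itw σ K [d] →
      ∃ k < K, ∃ d' x₁ x₂ p q, σ d' = x₁ ++ x₂ ∧ w = p ++ q ∧ p ≠ [] ∧ q ≠ [] ∧
        p <:+ itw σ k x₁ ∧ q <+: itw σ k x₂ := by
  intro K
  induction K with
  | zero =>
    intro d h
    have := h.length_le
    simp at this
    omega
  | succ K ih =>
    intro d h
    rw [itw_succ, img_singleton, itw_eq_flatMap] at h
    have hne : w ≠ [] := by intro h0; rw [h0] at hw; simp at hw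
    rcases infix_flatMap_cases hne h with ⟨c, -, h1⟩ | ⟨l₁, l₂, p, q, e1, e2, h2, h3, h4, h5⟩
    · obtain ⟨k, hk, rest⟩ := ih c h1
      exact ⟨k, by omega, rest⟩
    · refine ⟨K, by omega, d, l₁, l₂, p, q, e1, e2, h2, h3, ?_, ?_⟩
      · rw [itw_eq_flatMap]; exact h4
      · rw [itw_eq_flatMap]; exact h5

lemma Gen.level {u : ℕ → α} {σ : α → List α} (h : Gen u σ) {w : List α} (hf : Fac u w)
    (hw : 2 ≤ w.length) :
    ∃ k d x₁ x₂ p q, σ d = x₁ ++ x₂ ∧ w = p ++ q ∧ p ≠ [] ∧ q ≠ [] ∧
        p <:+ itw σ k x₁ ∧ q <+: itw σ k x₂ := by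
  obtain ⟨K, hK⟩ := h.fac_iff.1 hf
  obtain ⟨k, -, rest⟩ := level_split σ hw K _ hK
  exact ⟨k, rest⟩

end Pool.Agent.H89.Mor
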