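import Pool.Agent.H89.Mor.Words

set_option autoImplicit false

namespace Pool.Agent.H89.Mor

variable {α : Type}

/-- Case I : every growing letter has an image with at least two growing letters, and the runs of
non-growing letters are bounded -/
structure CaseI (u : ℕ → α) (σ : α → List α) (G : α → Bool) (ρ M : ℕ) : Prop where
  gen : Gen u σ
  closed : ∀ b, G b = false → ∀ c ∈ σ b, G c = false
  dbl : ∀ g, G g = true → 2 ≤ (σ g).countP G
  runs : ∀ w, Fac u w → (∀ c ∈ w, G c = false) → w.length ≤ ρ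
  M1 : 1 ≤ M
  hM : ∀ a, (σ a).length ≤ M
  start : G (u 0) = true

/-- number of growing letters in the `k`-th image -/
def lv (σ : α → List α) (G : α → Bool) (k : ℕ) (w : List α) : ℕ := (itw σ k w).countP G

section
variable {σ : α → List α} {G : α → Bool}

@[simp] lemma lv_append (k : ℕ) (v w : List α) : lv σ G k (v ++ w) = lv σ G k v + lv σ G k w := by
  simp [lv]
@[simp] lemma lv_nil (k : ℕ) : lv σ G k [] = 0 := by simp [lv]
lemma lv_cons (k : ℕ) (a : α) (w : List α) : lv σ G k (a :: w) = lv σ G k [a] + lv σ G k w := by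
  rw [← lv_append]; rfl
lemma lv_add (j k : ℕ) (w : List α) : lv σ G (j + k) w = lv σ G j (itw σ k w) := by
  simp [lv, itw_add]
lemma lv_zero (w : List α) : lv σ G 0 w = w.countP G := rfl

lemma lv_le_of_infix (k : ℕ) {v w : List α} (h : v <:+: w) : lv σ G k v ≤ lv σ G k w := by
  obtain ⟨a, b, rfl⟩ := h
  simp only [lv_append]
  omega

lemma lv_mem (k : ℕ) {a : α} {w : List α} (h : a ∈ w) : lv σ G k [a] ≤ lv σ G k w := by
  obtain ⟨s, t, rfl⟩ := List.append_of_mem h
  rw [lv_append, lv_cons k a t]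
  omega

lemma lv_le_sum {k : ℕ} {θ : ℕ} {w : List α} (h : ∀ a ∈ w, lv σ G k [a] ≤ θ) :
    lv σ G k w ≤ w.length * θ := by
  induction w with
  | nil => simp
  | cons a w ih =>
    rw [lv_cons, List.length_cons]
    have h1 := h a (by simp)
    have h2 := ih (fun b hb => h b (by simp [hb]))
    nlinarith

end

namespace CaseI
variable {u : ℕ → α} {σ : α → List α} {G : α → Bool} {ρ M : ℕ}

lemma img_free (h : CaseI u σ G ρ M) {w : List α} (hw : ∀ c ∈ w, G c = false) :
    ∀ c ∈ img σ w, G c = false := by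
  intro c hc
  rw [img, List.mem_flatMap] at hc
  obtain ⟨b, hb, hc⟩ := hc
  exact h.closed b (hw b hb) c hc

lemma itw_free (h : CaseI u σ G ρ M) (k : ℕ) {w : List α} (hw : ∀ c ∈ w, G c = false) :
    ∀ c ∈ itw σ k w, G c = false := by
  induction k with
  | zero => exact hw
  | succ k ih => rw [itw_succ']; exact h.img_free ih

lemma lv_free (h : CaseI u σ G ρ M) (k : ℕ) {w : List α} (hw : ∀ c ∈ w, G c = false) :
    lv σ G k w = 0 := by
  rw [lv, List.countP_eq_zero]
  intro c hc
  simp [h.itw_free k hw c hc]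

lemma count_img_ge (h : CaseI u σ G ρ M) (w : List α) : 2 * w.countP G ≤ (img σ w).countP G := by
  induction w with
  | nil => simp
  | cons a w ih =>
    rw [img_cons, List.countP_append]
    by_cases ha : G a = true
    · rw [List.countP_cons_of_pos ha]
      have := h.dbl a ha
      omega
    · rw [List.countP_cons_of_neg ha]
      omega

lemma count_img_le (h : CaseI u σ G ρ M) (w : List α) : (img σ w).countP G ≤ M * w.countP G := by
  induction w with
  | nil => simp
  | cons a w ih =>
    rw [img_cons, List.countP_append]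
    by_cases ha : G a = true
    · rw [List.countP_cons_of_pos ha]
      have h1 := List.countP_le_length (p := G) (l := σ a)
      have h2 := h.hM a
      nlinarith
    · rw [List.countP_cons_of_neg ha]
      have : (σ a).countP G = 0 := by
        rw [List.countP_eq_zero]
        intro c hc
        simp [h.closed a (by simpa using ha) c hc]
      omega

lemma len_img_le (h : CaseI u σ G ρ M) (w : List α) : (img σ w).length ≤ M * w.length := by
  induction w with
  | nil => simp
  | cons a w ih =>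
    rw [img_cons, List.length_append, List.length_cons]
    have h2 := h.hM a
    nlinarith

lemma len_itw_le (h : CaseI u σ G ρ M) (k : ℕ) (w : List α) : (itw σ k w).length ≤ M ^ k * w.length := by
  induction k generalizing w with
  | zero => simp
  | succ k ih =>
    rw [itw_succ]
    calc _ ≤ M ^ k * (img σ w).length := ih _
      _ ≤ M ^ k * (M * w.length) := Nat.mul_le_mul_left _ (h.len_img_le w)
      _ = _ := by ring

lemma lv_ge (h : CaseI u σ G ρ M) (j k : ℕ) (w : List α) : 2 ^ j * lv σ G k w ≤ lv σ G (j + k) w := by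
  induction j with
  | zero => simp
  | succ j ih =>
    have e : j + 1 + k = (j + k) + 1 := by ring
    rw [e]
    have := h.count_img_ge (itw σ (j + k) w)
    rw [← itw_succ'] at this
    unfold lv at *
    rw [pow_succ]
    nlinarith

lemma lv_le (h : CaseI u σ G ρ M) (j k : ℕ) (w : List α) : lv σ G (j + k) w ≤ M ^ j * lv σ G k w := by
  induction j with
  | zero => simp
  | succ j ih =>
    have e : j + 1 + k = (j + k) + 1 := by ring
    rw [e]
    have := h.count_img_le (itw σ (j + k) w)
    rw [← itw_succ'] at this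
    unfold lv at *
    rw [pow_succ]
    calc _ ≤ M * (itw σ (j + k) w).countP G := this
      _ ≤ M * (M ^ j * (itw σ k w).countP G) := Nat.mul_le_mul_left _ ih
      _ = _ := by ring

lemma lv_mono (h : CaseI u σ G ρ M) {j k : ℕ} (hjk : j ≤ k) (w : List α) : lv σ G j w ≤ lv σ G k w := by
  obtain ⟨d, rfl⟩ := Nat.exists_eq_add_of_le hjk
  have h1 := h.lv_ge d j w
  have h2 : 1 ≤ 2 ^ d := Nat.one_le_two_pow
  rw [Nat.add_comm d j] at h1
  nlinarith

lemma lv_pos (h : CaseI u σ G ρ M) {g : α} (hg : G g = true) (k : ℕ) : 2 ^ k ≤ lv σ G k [g] := by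
  have := h.lv_ge k 0 [g]
  simpa [lv_zero, hg] using this

lemma len_le (h : CaseI u σ G ρ M) {w : List α} (hw : Fac u w) :
    w.length ≤ (ρ + 1) * (w.countP G + 1) := by
  have := pieces G ρ w (fun v hv hvG => h.runs v (hw.of_infix hv) hvG)
  nlinarith

/-! ### Lemma R -/

lemma lemmaR_aux (h : CaseI u σ G ρ M) {S : Set α} (hcl : ∀ b ∈ S, ∀ c ∈ σ b, c ∈ S)
    (hsat : ∀ b, (∀ c ∈ σ b, c ∈ S) → b ∈ S) (k : ℕ) : ∀ (θ : ℕ), (∀ b ∈ S, lv σ G k [b] ≤ θ) →
    ∀ (x y : List α), y <:+: itw σ k x → (∀ c ∈ y, c ∈ S) →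
      ∃ x', x' <:+: x ∧ (∀ c ∈ x', c ∈ S) ∧ y.countP G ≤ lv σ G k x' + 2 * M * θ := by
  induction k with
  | zero =>
    intro θ _ x y hy hyS
    exact ⟨y, by simpa using hy, hyS, by rw [lv_zero]; omega⟩
  | succ k ih =>
    intro θ hθ x y hy hyS
    rw [itw_succ] at hy
    have hθ' : ∀ b ∈ S, lv σ G k [b] ≤ θ / 2 := by
      intro b hb
      have h1 := hθ b hb
      have h2 := h.lv_ge 1 k [b]
      rw [Nat.add_comm 1 k] at h2
      omega
    obtain ⟨y', hy'1, hy'2, hy'3⟩ := ih (θ / 2) hθ' (img σ x) y hy hyS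
    rcases infix_flatMap_decomp hy'1 with ⟨c, hc, hcy⟩ | ⟨p, x', q, e1, e2, e3, e4⟩
    · refine ⟨[], List.nil_infix, by simp, ?_⟩
      have h1 : lv σ G k y' ≤ y'.length * (θ / 2) := lv_le_sum (fun a ha => hθ' a (hy'2 a ha))
      have h2 : y'.length ≤ M := hcy.length_le.trans (h.hM c)
      have h3 : y'.length * (θ / 2) ≤ M * (θ / 2) := Nat.mul_le_mul_right _ h2
      have h4 : 2 * (θ / 2) ≤ θ := Nat.mul_div_le θ 2
      rw [lv_nil]
      nlinarith
    · have hx' : ∀ c ∈ x', c ∈ S := by
        intro c hc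
        apply hsat
        intro d hd
        apply hy'2
        rw [e2]
        simp only [List.mem_append, List.mem_flatMap]
        left; right
        exact ⟨c, hc, hd⟩
      refine ⟨x', e1, hx', ?_⟩
      have hpl : p.length ≤ M := by
        rcases e3 with rfl | ⟨c, -, hc⟩
        · simp
        · exact hc.length_le.trans (h.hM c)
      have hql : q.length ≤ M := by
        rcases e4 with rfl | ⟨c, -, hc⟩
        · simp
        · exact hc.length_le.trans (h.hM c)
      have hp : lv σ G k p ≤ p.length * (θ / 2) := lv_le_sum (fun a ha => hθ' a (hy'2 a (by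
        rw [e2]; simp [ha])))
      have hq : lv σ G k q ≤ q.length * (θ / 2) := lv_le_sum (fun a ha => hθ' a (hy'2 a (by
        rw [e2]; simp [ha])))
      have h3 : p.length * (θ / 2) ≤ M * (θ / 2) := Nat.mul_le_mul_right _ hpl
      have h5 : q.length * (θ / 2) ≤ M * (θ / 2) := Nat.mul_le_mul_right _ hql
      have h4 : 2 * (θ / 2) ≤ θ := Nat.mul_div_le θ 2
      have h6 : lv σ G k y' = lv σ G k p + lv σ G (k + 1) x' + lv σ G k q := by
        rw [e2, lv_append, lv_append]
        congr 2
      nlinarith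

lemma lemmaR (h : CaseI u σ G ρ M) {S : Set α} (hcl : ∀ b ∈ S, ∀ c ∈ σ b, c ∈ S)
    (hsat : ∀ b, (∀ c ∈ σ b, c ∈ S) → b ∈ S) (k θ : ℕ) (hθ : ∀ b ∈ S, lv σ G k [b] ≤ θ)
    {x y : List α} (hy : y <:+: itw σ k x) (hyS : ∀ c ∈ y, c ∈ S) :
    y.countP G ≤ (x.length + 2 * M) * θ := by
  obtain ⟨x', h1, h2, h3⟩ := h.lemmaR_aux hcl hsat k θ hθ x y hy hyS
  have h4 : lv σ G k x' ≤ x'.length * θ := lv_le_sum (fun a ha => hθ a (h2 a ha))
  have h5 := h1.length_le
  nlinarith

end CaseI

/-! ### closure and saturation -/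

/-- letters reachable from `X` -/
def Cl (σ : α → List α) (X : Set α) : Set α := {c | ∃ b ∈ X, ∃ j, c ∈ itw σ j [b]}

/-- saturation of the closure of `X` -/
def Sat (σ : α → List α) (X : Set α) : Set α := {e | ∃ j, ∀ c ∈ itw σ j [e], c ∈ Cl σ X}

section
variable {σ : α → List α}

lemma mem_img {w : List α} {c : α} : c ∈ img σ w ↔ ∃ b ∈ w, c ∈ σ b := by
  rw [img, List.mem_flatMap]

lemma mem_itw_iff (k : ℕ) {w : List α} {c : α} : c ∈ itw σ k w ↔ ∃ b ∈ w, c ∈ itw σ k [b] := by
  rw [itw_eq_flatMap, List.mem_flatMap]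

lemma Cl_closed (X : Set α) : ∀ b ∈ Cl σ X, ∀ c ∈ σ b, c ∈ Cl σ X := by
  rintro b ⟨a, ha, j, hj⟩ c hc
  refine ⟨a, ha, j + 1, ?_⟩
  rw [itw_succ', mem_img]
  exact ⟨b, hj, hc⟩

lemma closed_itw {S : Set α} (hcl : ∀ b ∈ S, ∀ c ∈ σ b, c ∈ S) (k : ℕ) {w : List α}
    (hw : ∀ c ∈ w, c ∈ S) : ∀ c ∈ itw σ k w, c ∈ S := by
  induction k with
  | zero => exact hw
  | succ k ih =>
    intro c hc
    rw [itw_succ', mem_img] at hc
    obtain ⟨b, hb, hc⟩ := hc
    exact hcl b (ih b hb) c hc

lemma subset_Cl (X : Set α) : X ⊆ Cl σ X := fun b hb => ⟨b, hb, 0, by simp⟩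

lemma Cl_subset_Sat (X : Set α) : Cl σ X ⊆ Sat σ X := fun b hb => ⟨0, by simpa using hb⟩

lemma Sat_closed (X : Set α) : ∀ b ∈ Sat σ X, ∀ c ∈ σ b, c ∈ Sat σ X := by
  rintro b ⟨j, hj⟩ c hc
  rcases j with _ | j
  · have : b ∈ Cl σ X := by simpa using hj
    exact Cl_subset_Sat X (Cl_closed X b this c hc)
  · refine ⟨j, fun d hd => hj d ?_⟩
    rw [itw_succ, img_singleton, mem_itw_iff]
    exact ⟨c, hc, hd⟩

lemma Sat_sat (X : Set α) : ∀ b, (∀ c ∈ σ b, c ∈ Sat σ X) → b ∈ Sat σ X := by
  intro b hb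
  have key : ∀ (w : List α), (∀ c ∈ w, c ∈ Sat σ X) → ∃ j, ∀ c ∈ itw σ j w, c ∈ Cl σ X := by
    intro w
    induction w with
    | nil => intro _; exact ⟨0, by simp⟩
    | cons a w ih =>
      intro hw
      obtain ⟨j₁, hj₁⟩ := ih (fun c hc => hw c (by simp [hc]))
      obtain ⟨j₂, hj₂⟩ := hw a (by simp)
      refine ⟨j₁ + j₂, ?_⟩
      intro c hc
      rw [itw_cons, List.mem_append] at hc
      rcases hc with hc | hc
      · rw [itw_add] at hc
        exact closed_itw (Cl_closed X) j₁ hj₂ c hc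
      · rw [Nat.add_comm, itw_add] at hc
        exact closed_itw (Cl_closed X) j₂ hj₁ c hc
  obtain ⟨j, hj⟩ := key (σ b) hb
  refine ⟨j + 1, ?_⟩
  rw [itw_succ, img_singleton]
  exact hj

end

namespace CaseI
variable {u : ℕ → α} {σ : α → List α} {G : α → Bool} {ρ M : ℕ}

/-- sizes of letters in the saturation -/
lemma sat_sizes [Fintype α] (h : CaseI u σ G ρ M) : ∃ C₂, 1 ≤ C₂ ∧ ∀ (k θ : ℕ) (X : Set α),
    (∀ b ∈ X, lv σ G k [b] ≤ θ) → ∀ e ∈ Sat σ X, lv σ G k [e] ≤ C₂ * θ := by
  classical
  obtain ⟨J₁, hJ₁⟩ := exists_uniform_bound (fun (x : Set α × α) j => ∃ b ∈ x.1, x.2 ∈ itw σ j [b])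
  obtain ⟨J₂, hJ₂⟩ := exists_uniform_bound (fun (x : Set α × α) j => ∀ c ∈ itw σ j [x.2], c ∈ Cl σ x.1)
  refine ⟨M ^ J₂ * M ^ J₁, ?_, ?_⟩
  · exact Nat.mul_pos (Nat.pow_pos (by have := h.M1; omega)) (Nat.pow_pos (by have := h.M1; omega))
  intro k θ X hX
  have h1 : ∀ c ∈ Cl σ X, lv σ G k [c] ≤ M ^ J₁ * θ := by
    rintro c ⟨b, hb, j, hj⟩
    obtain ⟨j', hj', b', hb', hc⟩ := hJ₁ (X, c) ⟨j, b, hb, hj⟩
    simp only at hb' hc
    calc lv σ G k [c] ≤ lv σ G k (itw σ j' [b']) := lv_mem k hc
      _ = lv σ G (j' + k) [b'] := by rw [← lv_add, Nat.add_comm]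
      _ ≤ M ^ j' * lv σ G k [b'] := h.lv_le j' k [b']
      _ ≤ M ^ J₁ * θ := Nat.mul_le_mul (Nat.pow_le_pow_right h.M1 hj') (hX b' hb')
  intro e he
  obtain ⟨j, hj, hc⟩ := hJ₂ (X, e) he
  simp only at hc
  calc lv σ G k [e] ≤ lv σ G (k + j) [e] := h.lv_mono (by omega) _
    _ = lv σ G k (itw σ j [e]) := lv_add _ _ _
    _ ≤ (itw σ j [e]).length * (M ^ J₁ * θ) := lv_le_sum (fun c hc' => h1 c (hc c hc'))
    _ ≤ (M ^ j * 1) * (M ^ J₁ * θ) := Nat.mul_le_mul_right _ (by simpa using h.len_itw_le j [e])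
    _ ≤ (M ^ J₂ * 1) * (M ^ J₁ * θ) := Nat.mul_le_mul_right _
        (Nat.mul_le_mul_right _ (Nat.pow_le_pow_right h.M1 hj))
    _ = _ := by ring

/-- Lemma T -/
lemma lemmaT [Fintype α] (h : CaseI u σ G ρ M) (m₀ : ℕ) : ∃ T, ∀ (k : ℕ) (w x₀ : List α),
    w <:+: itw σ k x₀ → x₀.length ≤ m₀ → ∀ x, Fac u x → itw σ k x <:+: w → x.length ≤ T := by
  classical
  obtain ⟨C₂, hC₂, hsz⟩ := h.sat_sizes
  set C := (m₀ + 2 * M) * C₂ with hC
  -- T i
  set T : ℕ → ℕ := fun i => Nat.rec ρ (fun _ t => C + (C + 1) * t) i with hT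
  have hT0 : T 0 = ρ := rfl
  have hTs : ∀ i, T (i + 1) = C + (C + 1) * T i := fun i => rfl
  have hTρ : ∀ i, ρ ≤ T i := by
    intro i
    induction i with
    | zero => exact le_rfl
    | succ i ih => rw [hTs]; nlinarith
  refine ⟨T (Fintype.card α), ?_⟩
  intro k w x₀ hw hx₀
  have main : ∀ i θ, (Finset.univ.filter (fun g => G g = true ∧ lv σ G k [g] ≤ θ)).card ≤ i →
      ∀ x, Fac u x → (∀ c ∈ x, G c = true → lv σ G k [c] ≤ θ) → itw σ k x <:+: w → x.length ≤ T i := by
    intro i
    induction i with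
    | zero =>
      intro θ hcard x hx hxθ hxw
      apply h.runs x hx
      intro c hc
      by_contra hG
      have hG' : G c = true := by simpa using hG
      have : c ∈ Finset.univ.filter (fun g => G g = true ∧ lv σ G k [g] ≤ θ) := by
        simp [hG', hxθ c hc hG']
      rw [Nat.le_zero, Finset.card_eq_zero] at hcard
      rw [hcard] at this
      simp at this
    | succ i ih =>
      intro θ hcard x hx hxθ hxw
      by_cases hne : (Finset.univ.filter (fun g => G g = true ∧ lv σ G k [g] ≤ θ)).Nonempty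
      · obtain ⟨g, hg, hmax⟩ := Finset.exists_max_image _ (fun g => lv σ G k [g]) hne
        rw [Finset.mem_filter] at hg
        set θ' := lv σ G k [g] with hθ'
        have hθ'1 : 1 ≤ θ' := le_trans Nat.one_le_two_pow (h.lv_pos hg.2.1 k)
        have hxθ' : ∀ c ∈ x, lv σ G k [c] ≤ θ' := by
          intro c hc
          by_cases hG : G c = true
          · exact hmax c (by simp [hG, hxθ c hc hG])
          · have : lv σ G k [c] = 0 := h.lv_free k (by simpa using hG)
            omega
        set X : Set α := {b | lv σ G k [b] ≤ θ'} with hX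
        have hS := hsz k θ' X (fun b hb => hb)
        have hxS : ∀ c ∈ itw σ k x, c ∈ Sat σ X :=
          closed_itw (Sat_closed X) k (fun c hc => Cl_subset_Sat X (subset_Cl X (hxθ' c hc)))
        have hR := h.lemmaR (Sat_closed X) (Sat_sat X) k (C₂ * θ') hS (hxw.trans hw) hxS
        -- count letters of size θ'
        have hcnt : x.countP (fun c => decide (lv σ G k [c] = θ')) * θ' ≤ lv σ G k x := by
          clear hx hxθ hxw hxθ' hxS hR
          induction x with
          | nil => simp
          | cons a x ihx =>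
            rw [lv_cons]
            by_cases ha : lv σ G k [a] = θ'
            · rw [List.countP_cons_of_pos (by simp [ha]), ha]
              nlinarith
            · rw [List.countP_cons_of_neg (by simp [ha])]
              omega
        have hcnt2 : x.countP (fun c => decide (lv σ G k [c] = θ')) ≤ C := by
          have h1 : lv σ G k x ≤ C * θ' := by
            calc lv σ G k x = (itw σ k x).countP G := rfl
              _ ≤ (x₀.length + 2 * M) * (C₂ * θ') := hR
              _ ≤ (m₀ + 2 * M) * (C₂ * θ') := Nat.mul_le_mul_right _ (by omega)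
              _ = C * θ' := by rw [hC]; ring
          exact Nat.le_of_mul_le_mul_right (hcnt.trans h1) (by omega)
        have hpc := pieces (fun c => decide (lv σ G k [c] = θ')) (T i) x (by
          intro v hv hvP
          apply ih (θ' - 1) ?_ v (hx.of_infix hv) ?_ ((itw_infix σ k hv).trans hxw)
          · -- fewer letters
            have hsub : Finset.univ.filter (fun g => G g = true ∧ lv σ G k [g] ≤ θ' - 1) ⊂
                Finset.univ.filter (fun g => G g = true ∧ lv σ G k [g] ≤ θ) := by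
              rw [Finset.ssubset_iff_of_subset]
              · refine ⟨g, Finset.mem_filter.2 ⟨Finset.mem_univ _, hg.2.1, hg.2.2⟩, ?_⟩
                simp only [Finset.mem_filter, Finset.mem_univ, true_and, not_and, not_le]
                intro _
                omega
              · intro e he
                simp only [Finset.mem_filter, Finset.mem_univ, true_and] at he ⊢
                exact ⟨he.1, he.2.trans ((Nat.sub_le _ _).trans hg.2.2)⟩
            have := Finset.card_lt_card hsub
            omega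
          · intro c hc hG
            have h1 := hxθ' c (hv.subset hc)
            have h2 := hvP c hc
            simp only [decide_eq_false_iff_not] at h2
            omega)
        calc x.length ≤ _ := hpc
          _ ≤ C + (C + 1) * T i := by
            apply Nat.add_le_add hcnt2
            exact Nat.mul_le_mul_right _ (by omega)
          _ = T (i + 1) := (hTs i).symm
      · rw [Finset.not_nonempty_iff_eq_empty] at hne
        refine le_trans (h.runs x hx ?_) (hTρ (i + 1))
        intro c hc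
        by_contra hG
        have hG' : G c = true := by simpa using hG
        have : c ∈ Finset.univ.filter (fun g => G g = true ∧ lv σ G k [g] ≤ θ) := by
          simp [hG', hxθ c hc hG']
        rw [hne] at this
        simp at this
  intro x hx hxw
  refine main (Fintype.card α) (Finset.univ.sup (fun g => lv σ G k [g])) ?_ x hx ?_ hxw
  · exact Finset.card_le_univ _
  · intro c _ _
    exact Finset.le_sup (f := fun g => lv σ G k [g]) (Finset.mem_univ c)

end CaseI

end Pool.Agent.H89.Mor
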