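import Pool.Agent.H89.Mor.CIUpper

set_option autoImplicit false

namespace Pool.Agent.H89.Mor

variable {α : Type}

/-! ### longest common initial part -/

/-- longest common initial part of two words -/
def lcp [DecidableEq α] : List α → List α → List α
  | a :: l, b :: m => if a = b then a :: lcp l m else []
  | _, _ => []

section lcp
variable [DecidableEq α]

@[simp] lemma lcp_nil_left (m : List α) : lcp [] m = [] := by
  cases m <;> rfl
@[simp] lemma lcp_nil_right (l : List α) : lcp l [] = [] := by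
  cases l <;> rfl
lemma lcp_cons_same (a : α) (l m : List α) : lcp (a :: l) (a :: m) = a :: lcp l m := by
  simp [lcp]
lemma lcp_cons_ne {a b : α} (h : a ≠ b) (l m : List α) : lcp (a :: l) (b :: m) = [] := by
  simp [lcp, h]

lemma lcp_prefix_left : ∀ (l m : List α), lcp l m <+: l := by
  intro l
  induction l with
  | nil => intro m; simp
  | cons a l ih =>
    intro m
    cases m with
    | nil => simp
    | cons b m =>
      by_cases h : a = b
      · subst h
        rw [lcp_cons_same]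
        exact (List.prefix_cons_inj a).2 (ih m)
      · rw [lcp_cons_ne h]; simp

lemma lcp_comm : ∀ (l m : List α), lcp l m = lcp m l := by
  intro l
  induction l with
  | nil => intro m; simp
  | cons a l ih =>
    intro m
    cases m with
    | nil => simp
    | cons b m =>
      by_cases h : a = b
      · subst h
        rw [lcp_cons_same, lcp_cons_same, ih]
      · rw [lcp_cons_ne h, lcp_cons_ne (Ne.symm h)]

lemma lcp_prefix_right (l m : List α) : lcp l m <+: m := by
  rw [lcp_comm]; exact lcp_prefix_left m l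

lemma prefix_lcp : ∀ {p l m : List α}, p <+: l → p <+: m → p <+: lcp l m := by
  intro p
  induction p with
  | nil => intro l m _ _; simp
  | cons a p ih =>
    intro l m h1 h2
    obtain ⟨t, rfl⟩ := h1
    obtain ⟨s, rfl⟩ := h2
    rw [List.cons_append, List.cons_append, lcp_cons_same]
    exact (List.prefix_cons_inj a).2 (ih (List.prefix_append _ _) (List.prefix_append _ _))

lemma lcp_split : ∀ {l m : List α}, ¬ l <+: m → ¬ m <+: l →
    ∃ a b r s, l = lcp l m ++ a :: r ∧ m = lcp l m ++ b :: s ∧ a ≠ b := by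
  intro l
  induction l with
  | nil => intro m h1 _; exact absurd (List.nil_prefix) h1
  | cons a l ih =>
    intro m h1 h2
    cases m with
    | nil => exact absurd (List.nil_prefix) h2
    | cons b m =>
      by_cases h : a = b
      · subst h
        rw [List.prefix_cons_inj] at h1 h2
        obtain ⟨c, d, r, s, e1, e2, e3⟩ := ih h1 h2
        refine ⟨c, d, r, s, ?_, ?_, e3⟩
        · rw [lcp_cons_same, List.cons_append, ← e1]
        · rw [lcp_cons_same, List.cons_append, ← e2]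
      · exact ⟨a, b, l, m, by rw [lcp_cons_ne h]; rfl, by rw [lcp_cons_ne h]; rfl, h⟩

end lcp

/-- uniqueness of the part before the first letter with property `P` -/
lemma first_unique {P : α → Prop} : ∀ {y y' : List α} {f f' : α} {t t' : List α},
    (∀ c ∈ y, ¬ P c) → (∀ c ∈ y', ¬ P c) → P f → P f' → y ++ f :: t = y' ++ f' :: t' →
    y = y' ∧ f = f' ∧ t = t' := by
  intro y
  induction y with
  | nil =>
    intro y' f f' t t' _ hy' hf _ h
    cases y' with
    | nil => simp at h; exact ⟨rfl, h.1, h.2⟩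
    | cons b y' =>
      simp at h
      exact absurd (h.1 ▸ hf) (hy' b (by simp))
  | cons a y ih =>
    intro y' f f' t t' hy hy' hf hf' h
    cases y' with
    | nil =>
      simp at h
      exact absurd (h.1 ▸ hf') (hy a (by simp))
    | cons b y' =>
      simp only [List.cons_append, List.cons.injEq] at h
      obtain ⟨h1, h2, h3⟩ := ih (fun c hc => hy c (by simp [hc])) (fun c hc => hy' c (by simp [hc]))
        hf hf' h.2
      exact ⟨by rw [h.1, h1], h2, h3⟩

lemma last_unique {P : α → Prop} {y y' : List α} {f f' : α} {t t' : List α}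
    (hy : ∀ c ∈ y, ¬ P c) (hy' : ∀ c ∈ y', ¬ P c) (hf : P f) (hf' : P f')
    (h : t ++ f :: y = t' ++ f' :: y') : t = t' ∧ f = f' ∧ y = y' := by
  have h' : y.reverse ++ f :: t.reverse = y'.reverse ++ f' :: t'.reverse := by
    have := congrArg List.reverse h
    simpa using this
  obtain ⟨h1, h2, h3⟩ := first_unique (P := P) (by simpa using hy) (by simpa using hy') hf hf' h'
  exact ⟨List.reverse_injective h3, h2, List.reverse_injective h1⟩

/-! ### iterating the last and first letters outside `S` -/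

/-- splitting data : `σ e = X e ++ E e :: V e` -/
structure Spl (σ : α → List α) (S : Set α) (X V : α → List α) (E : α → α) : Prop where
  eq : ∀ e, e ∉ S → σ e = X e ++ E e :: V e
  out : ∀ e, e ∉ S → E e ∉ S
  ins : ∀ e, e ∉ S → ∀ c ∈ V e, c ∈ S

/-- splitting data on the other side : `σ f = V f ++ E f :: X f` -/
structure Spr (σ : α → List α) (S : Set α) (X V : α → List α) (E : α → α) : Prop where
  eq : ∀ e, e ∉ S → σ e = V e ++ E e :: X e
  out : ∀ e, e ∉ S → E e ∉ S
  ins : ∀ e, e ∉ S → ∀ c ∈ V e, c ∈ S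

lemma exists_spl {σ : α → List α} {S : Set α} (hsat : ∀ b, (∀ c ∈ σ b, c ∈ S) → b ∈ S) :
    ∃ X V E, Spl σ S X V E := by
  classical
  have h : ∀ e, ∃ (d : List α × α × List α), e ∉ S → σ e = d.1 ++ d.2.1 :: d.2.2 ∧ d.2.1 ∉ S ∧
      ∀ c ∈ d.2.2, c ∈ S := by
    intro e
    by_cases he : e ∉ S
    · have : ∃ c ∈ σ e, c ∉ S := by
        by_contra hcon
        push Not at hcon
        exact he (hsat e hcon)
      obtain ⟨w₁, g, y, h1, h2, h3⟩ := exists_last (fun c => c ∉ S) (σ e) this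
      exact ⟨(w₁, g, y), fun _ => ⟨h1, h2, fun c hc => by simpa using h3 c hc⟩⟩
    · exact ⟨([], e, []), fun h => absurd h he⟩
  choose d hd using h
  exact ⟨fun e => (d e).1, fun e => (d e).2.2, fun e => (d e).2.1,
    ⟨fun e he => (hd e he).1, fun e he => (hd e he).2.1, fun e he => (hd e he).2.2⟩⟩

lemma exists_spr {σ : α → List α} {S : Set α} (hsat : ∀ b, (∀ c ∈ σ b, c ∈ S) → b ∈ S) :
    ∃ X V E, Spr σ S X V E := by
  classical
  have h : ∀ e, ∃ (d : List α × α × List α), e ∉ S → σ e = d.1 ++ d.2.1 :: d.2.2 ∧ d.2.1 ∉ S ∧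
      ∀ c ∈ d.1, c ∈ S := by
    intro e
    by_cases he : e ∉ S
    · have : ∃ c ∈ σ e, c ∉ S := by
        by_contra hcon
        push Not at hcon
        exact he (hsat e hcon)
      obtain ⟨w₁, g, y, h1, h2, h3⟩ := exists_first (fun c => c ∉ S) (σ e) this
      exact ⟨(w₁, g, y), fun _ => ⟨h1, h2, fun c hc => by simpa using h3 c hc⟩⟩
    · exact ⟨([], e, []), fun h => absurd h he⟩
  choose d hd using h
  exact ⟨fun e => (d e).2.2, fun e => (d e).1, fun e => (d e).2.1,
    ⟨fun e he => (hd e he).1, fun e he => (hd e he).2.1, fun e he => (hd e he).2.2⟩⟩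

/-- iterated right part -/
def VJ (σ : α → List α) (V : α → List α) (E : α → α) : ℕ → α → List α
  | 0, _ => []
  | j + 1, e => V (E^[j] e) ++ img σ (VJ σ V E j e)

/-- iterated left part -/
def LJ (σ : α → List α) (X : α → List α) (E : α → α) : ℕ → α → List α
  | 0, _ => []
  | j + 1, e => img σ (LJ σ X E j e) ++ X (E^[j] e)

/-- iterated left part, mirrored -/
def VJ' (σ : α → List α) (V : α → List α) (E : α → α) : ℕ → α → List α
  | 0, _ => []
  | j + 1, e => img σ (VJ' σ V E j e) ++ V (E^[j] e)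

/-- iterated right part, mirrored -/
def LJ' (σ : α → List α) (X : α → List α) (E : α → α) : ℕ → α → List α
  | 0, _ => []
  | j + 1, e => X (E^[j] e) ++ img σ (LJ' σ X E j e)

section
variable {σ : α → List α} {S : Set α} {X V : α → List α} {E : α → α}

lemma Spl.outj (h : Spl σ S X V E) {e : α} (he : e ∉ S) (j : ℕ) : E^[j] e ∉ S := by
  induction j with
  | zero => exact he
  | succ j ih => rw [Function.iterate_succ_apply']; exact h.out _ ih

lemma Spr.outj (h : Spr σ S X V E) {e : α} (he : e ∉ S) (j : ℕ) : E^[j] e ∉ S := by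
  induction j with
  | zero => exact he
  | succ j ih => rw [Function.iterate_succ_apply']; exact h.out _ ih

lemma Spl.itw_eq (h : Spl σ S X V E) {e : α} (he : e ∉ S) (j : ℕ) :
    itw σ j [e] = LJ σ X E j e ++ E^[j] e :: VJ σ V E j e := by
  induction j with
  | zero => simp [LJ, VJ]
  | succ j ih =>
    rw [itw_succ', ih, img_append, img_cons, h.eq _ (h.outj he j), LJ, VJ,
      Function.iterate_succ_apply']
    simp

lemma Spr.itw_eq (h : Spr σ S X V E) {e : α} (he : e ∉ S) (j : ℕ) :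
    itw σ j [e] = VJ' σ V E j e ++ E^[j] e :: LJ' σ X E j e := by
  induction j with
  | zero => simp [LJ', VJ']
  | succ j ih =>
    rw [itw_succ', ih, img_append, img_cons, h.eq _ (h.outj he j), LJ', VJ',
      Function.iterate_succ_apply']
    simp

lemma Spl.VJ_ins (h : Spl σ S X V E) (hcl : ∀ b ∈ S, ∀ c ∈ σ b, c ∈ S) {e : α} (he : e ∉ S) (j : ℕ) :
    ∀ c ∈ VJ σ V E j e, c ∈ S := by
  induction j with
  | zero => simp [VJ]
  | succ j ih =>
    intro c hc
    rw [VJ, List.mem_append] at hc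
    rcases hc with hc | hc
    · exact h.ins _ (h.outj he j) c hc
    · obtain ⟨b, hb, hc⟩ := mem_img.1 hc
      exact hcl b (ih b hb) c hc

lemma Spr.VJ_ins (h : Spr σ S X V E) (hcl : ∀ b ∈ S, ∀ c ∈ σ b, c ∈ S) {e : α} (he : e ∉ S) (j : ℕ) :
    ∀ c ∈ VJ' σ V E j e, c ∈ S := by
  induction j with
  | zero => simp [VJ']
  | succ j ih =>
    intro c hc
    rw [VJ', List.mem_append] at hc
    rcases hc with hc | hc
    · obtain ⟨b, hb, hc⟩ := mem_img.1 hc
      exact hcl b (ih b hb) c hc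
    · exact h.ins _ (h.outj he j) c hc

lemma VJ_add (j k : ℕ) (e : α) :
    VJ σ V E (j + k) e = VJ σ V E j (E^[k] e) ++ itw σ j (VJ σ V E k e) := by
  induction j with
  | zero => simp [VJ]
  | succ j ih =>
    have e1 : j + 1 + k = (j + k) + 1 := by ring
    rw [e1, VJ, ih, VJ, img_append, itw_succ', ← Function.iterate_add_apply]
    simp

lemma VJ'_add (j k : ℕ) (e : α) :
    VJ' σ V E (j + k) e = itw σ j (VJ' σ V E k e) ++ VJ' σ V E j (E^[k] e) := by
  induction j with
  | zero => simp [VJ']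
  | succ j ih =>
    have e1 : j + 1 + k = (j + k) + 1 := by ring
    rw [e1, VJ', ih, VJ', img_append, itw_succ', ← Function.iterate_add_apply]
    simp

end

/-- good sets of slow letters -/
structure Good (u : ℕ → α) (σ : α → List α) (G : α → Bool) (S : Set α) : Prop where
  closed : ∀ b ∈ S, ∀ c ∈ σ b, c ∈ S
  sat : ∀ b, (∀ c ∈ σ b, c ∈ S) → b ∈ S
  sub : ∀ b, G b = false → b ∈ S
  ex : ∃ g ∈ S, G g = true
  start : u 0 ∉ S
  tail : ∃ x, σ (u 0) = u 0 :: x ∧ ∃ c ∈ x, c ∉ S

namespace CaseI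
variable {u : ℕ → α} {σ : α → List α} {G : α → Bool} {ρ M : ℕ}

lemma itw_out {S : Set α} (hsat : ∀ b, (∀ c ∈ σ b, c ∈ S) → b ∈ S) (k : ℕ) {w : List α}
    (hw : ∃ c ∈ w, c ∉ S) : ∃ c ∈ itw σ k w, c ∉ S := by
  induction k with
  | zero => exact hw
  | succ k ih =>
    obtain ⟨b, hb, hbS⟩ := ih
    have : ∃ c ∈ σ b, c ∉ S := by
      by_contra hcon
      push Not at hcon
      exact hbS (hsat b hcon)
    obtain ⟨c, hc, hcS⟩ := this
    refine ⟨c, ?_, hcS⟩
    rw [itw_succ', mem_img]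
    exact ⟨b, hb, hc⟩

/-- the first triple -/
lemma exists_triple (h : CaseI u σ G ρ M) {S : Set α} (hS : Good u σ G S) :
    ∃ e y f, e ∉ S ∧ f ∉ S ∧ (∀ c ∈ y, c ∈ S) ∧ (∃ c ∈ y, G c = true) ∧ Fac u (e :: y ++ [f]) := by
  obtain ⟨g, hgS, hgG⟩ := hS.ex
  obtain ⟨x, hx, hxS⟩ := hS.tail
  obtain ⟨k, hk⟩ := h.gen.letter_mem g
  have hstart : ∀ k, ∃ r, itw σ k [u 0] = u 0 :: r := by
    intro k
    induction k with
    | zero => exact ⟨[], rfl⟩
    | succ k ih =>
      obtain ⟨r, hr⟩ := ih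
      refine ⟨r ++ itw σ k x, ?_⟩
      rw [itw_succ, img_singleton, hx, itw_cons, hr]
      rfl
  obtain ⟨A, B, hAB⟩ := List.append_of_mem hk
  have hA : ∃ c ∈ A, c ∉ S := by
    obtain ⟨r, hr⟩ := hstart k
    rw [hAB] at hr
    cases A with
    | nil =>
      simp at hr
      exact absurd (hr.1 ▸ hgS) hS.start
    | cons a A =>
      simp at hr
      exact ⟨a, by simp, by rw [hr.1]; exact hS.start⟩
  obtain ⟨A₁, e, a, e1, e2, e3⟩ := exists_last (fun c => c ∉ S) A hA
  have hB : ∃ c ∈ B ++ itw σ k x, c ∉ S := by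
    obtain ⟨c, hc, hcS⟩ := itw_out hS.sat k hxS
    exact ⟨c, by simp [hc], hcS⟩
  obtain ⟨b, f, B₂, f1, f2, f3⟩ := exists_first (fun c => c ∉ S) _ hB
  refine ⟨e, a ++ g :: b, f, e2, f2, ?_, ⟨g, by simp, hgG⟩, ?_⟩
  · intro c hc
    rw [List.mem_append, List.mem_cons] at hc
    rcases hc with hc | rfl | hc
    · simpa using e3 c hc
    · exact hgS
    · simpa using f3 c hc
  · apply (h.gen.fac_iter (k + 1)).of_infix
    refine ⟨A₁, B₂, ?_⟩
    rw [itw_succ, img_singleton, hx, itw_cons, hAB, e1]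
    have : A₁ ++ (e :: (a ++ g :: b) ++ [f]) ++ B₂ = A₁ ++ e :: a ++ g :: (b ++ f :: B₂) := by simp
    rw [this, ← f1]
    simp

lemma lv_pos_of_mem (h : CaseI u σ G ρ M) {y : List α} (hy : ∃ c ∈ y, G c = true) (j : ℕ) :
    1 ≤ lv σ G j y := by
  obtain ⟨c, hc, hG⟩ := hy
  exact (le_trans Nat.one_le_two_pow (h.lv_pos hG j)).trans (lv_mem j hc)

/-- Step 1 : two runs with the same ends and a common start -/
lemma exists_pair [Fintype α] (h : CaseI u σ G ρ M) {S : Set α} (hS : Good u σ G S) :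
    ∃ e f Y Y' P, e ∉ S ∧ f ∉ S ∧ (∀ c ∈ Y, c ∈ S) ∧ (∀ c ∈ Y', c ∈ S) ∧ Fac u (e :: Y ++ [f]) ∧
      Fac u (e :: Y' ++ [f]) ∧ P <+: Y ∧ P <+: Y' ∧ 1 ≤ P.countP G ∧ ∀ j, lv σ G j Y < lv σ G j Y' := by
  classical
  obtain ⟨e, y, f, he, hf, hy, hyG, hfac⟩ := h.exists_triple hS
  obtain ⟨X, V, E, hl⟩ := exists_spl hS.sat
  obtain ⟨X', V', F, hr⟩ := exists_spr hS.sat
  -- the sequence
  set yk : ℕ → List α := fun k => VJ σ V E k e ++ itw σ k y ++ VJ' σ V' F k f with hyk
  have hykS : ∀ k, ∀ c ∈ yk k, c ∈ S := by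
    intro k c hc
    simp only [hyk, List.mem_append] at hc
    rcases hc with (hc | hc) | hc
    · exact hl.VJ_ins hS.closed he k c hc
    · exact closed_itw hS.closed k hy c hc
    · exact hr.VJ_ins hS.closed hf k c hc
  have hykF : ∀ k, Fac u (E^[k] e :: yk k ++ [F^[k] f]) := by
    intro k
    apply (h.gen.fac_itw hfac k).of_infix
    refine ⟨LJ σ X E k e, LJ' σ X' F k f, ?_⟩
    rw [itw_append, itw_cons, hl.itw_eq he k, hr.itw_eq hf k]
    simp [hyk]
  have hykG : ∀ k, ∃ c ∈ yk k, G c = true := by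
    intro k
    have h1 := h.lv_pos_of_mem hyG k
    have h2 : 0 < (itw σ k y).countP G := h1
    rw [List.countP_pos_iff] at h2
    obtain ⟨c, hc, hcG⟩ := h2
    exact ⟨c, by simp [hyk, hc], hcG⟩
  have hP : ∀ k, ∃ P, P <+: yk k ∧ 1 ≤ P.countP G ∧ P.length ≤ ρ + 1 := by
    intro k
    obtain ⟨a, g, b, e1, e2, e3⟩ := exists_first (fun c => G c = true) _ (hykG k)
    refine ⟨a ++ [g], ⟨b, by rw [e1]; simp⟩, ?_, ?_⟩
    · rw [List.countP_append]; simp [e2]
    · have : a.length ≤ ρ := h.runs a ((hykF k).of_infix ⟨[E^[k] e], g :: b ++ [F^[k] f], by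
        rw [e1]; simp⟩) (fun c hc => by simpa using e3 c hc)
      simp; omega
  choose P hP1 hP2 hP3 using hP
  -- pigeonhole
  have hfin : Set.Finite ((Set.univ : Set (α × α)) ×ˢ {w : List α | w.length ≤ ρ + 1}) :=
    Set.finite_univ.prod (List.finite_length_le α (ρ + 1))
  obtain ⟨a, -, b, -, hab, heq⟩ := Set.infinite_univ.exists_ne_map_eq_of_mapsTo
    (f := fun k : ℕ => (((E^[k] e, F^[k] f), P k) : (α × α) × List α)) (t := (Set.univ : Set (α × α)) ×ˢ
      {w : List α | w.length ≤ ρ + 1}) (fun k _ => ⟨trivial, hP3 k⟩) hfin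
  have main : ∀ a b, a < b → E^[a] e = E^[b] e → F^[a] f = F^[b] f → P a = P b →
      ∃ e f Y Y' P, e ∉ S ∧ f ∉ S ∧ (∀ c ∈ Y, c ∈ S) ∧ (∀ c ∈ Y', c ∈ S) ∧ Fac u (e :: Y ++ [f]) ∧
      Fac u (e :: Y' ++ [f]) ∧ P <+: Y ∧ P <+: Y' ∧ 1 ≤ P.countP G ∧ ∀ j, lv σ G j Y < lv σ G j Y' := by
    intro a b hlt h1 h2 h3
    refine ⟨E^[a] e, F^[a] f, yk a, yk b, P a, hl.outj he a, hr.outj hf a, hykS a, hykS b, hykF a, ?_,
      hP1 a, ?_, hP2 a, ?_⟩
    · rw [h1, h2]; exact hykF b
    · rw [h3]; exact hP1 b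
    · intro j
      obtain ⟨p, hp⟩ := Nat.exists_eq_add_of_lt hlt
      have hb : b = (p + 1) + a := by omega
      have e1 : itw σ (p + 1) (yk a) <:+: yk b := by
        simp only [hyk]
        have e0 : itw σ (p + 1 + a) y = itw σ (p + 1) (itw σ a y) := itw_add _ _ _ _
        rw [hb, VJ_add, VJ'_add, e0, itw_append, itw_append]
        refine ⟨VJ σ V E (p + 1) (E^[a] e), VJ' σ V' F (p + 1) (F^[a] f), ?_⟩
        simp only [List.append_assoc]
      have e2 : lv σ G j (itw σ (p + 1) (yk a)) ≤ lv σ G j (yk b) := lv_le_of_infix j e1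
      rw [← lv_add, Nat.add_comm] at e2
      have e3 := h.lv_ge (p + 1) j (yk a)
      have e4 := h.lv_pos_of_mem (hykG a) j
      have e5 : 2 ≤ 2 ^ (p + 1) := by
        calc 2 = 2 ^ 1 := rfl
          _ ≤ 2 ^ (p + 1) := Nat.pow_le_pow_right (by norm_num) (by omega)
      nlinarith
  simp only [Prod.mk.injEq] at heq
  rcases lt_or_gt_of_ne hab with hlt | hlt
  · exact main a b hlt heq.1.1 heq.1.2 heq.2
  · exact main b a hlt heq.1.1.symm heq.1.2.symm heq.2.symm

/-- Step 2 -/
lemma exists_specials [Fintype α] (h : CaseI u σ G ρ M) {S : Set α} (hS : Good u σ G S) :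
    ∃ (C : ℕ) (Q : ℕ → List α), (∀ j, ∀ c ∈ Q j, c ∈ S) ∧ (StrictMono fun j => (Q j).countP G) ∧
      ∀ n j θ, (∀ b ∈ S, lv σ G j [b] ≤ θ) → C * (θ + 1) ≤ n → (∀ b, b ∉ S → 2 * n ≤ lv σ G j [b]) →
        ∃ w ∈ RS u n, ∃ v e, w = v ++ e :: Q j ∧ e ∉ S := by
  classical
  obtain ⟨e, f, Y, Y', P, he, hf, hY, hY', hfac, hfac', hPY, hPY', hPG, hlt⟩ := h.exists_pair hS
  obtain ⟨X, V, E, hl⟩ := exists_spl hS.sat
  obtain ⟨X', V', F, hr⟩ := exists_spr hS.sat
  set y1 : ℕ → List α := fun k => VJ σ V E k e ++ itw σ k Y ++ VJ' σ V' F k f with hy1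
  set y2 : ℕ → List α := fun k => VJ σ V E k e ++ itw σ k Y' ++ VJ' σ V' F k f with hy2
  have hgen : ∀ (Z : List α), (∀ c ∈ Z, c ∈ S) → ∀ k, ∀ c ∈ VJ σ V E k e ++ itw σ k Z ++ VJ' σ V' F k f,
      c ∈ S := by
    intro Z hZ k c hc
    simp only [List.mem_append] at hc
    rcases hc with (hc | hc) | hc
    · exact hl.VJ_ins hS.closed he k c hc
    · exact closed_itw hS.closed k hZ c hc
    · exact hr.VJ_ins hS.closed hf k c hc
  have hy1S : ∀ k, ∀ c ∈ y1 k, c ∈ S := hgen Y hY
  have hy2S : ∀ k, ∀ c ∈ y2 k, c ∈ S := hgen Y' hY'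
  have hne : ∀ k, y1 k ≠ y2 k := by
    intro k heq
    have := congrArg (List.countP G) heq
    simp only [hy1, hy2, List.countP_append] at this
    have h2 := hlt k
    unfold lv at h2
    omega
  have hnp1 : ∀ k, ¬ (y1 k ++ [F^[k] f]) <+: (y2 k ++ [F^[k] f]) := by
    rintro k ⟨t, ht⟩
    have := first_unique (P := fun c => c ∉ S) (y := y1 k) (y' := y2 k) (f := F^[k] f) (f' := F^[k] f)
      (t := t) (t' := []) (fun c hc => by simpa using hy1S k c hc) (fun c hc => by simpa using hy2S k c hc)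
      (hr.outj hf k) (hr.outj hf k) (by simpa using ht)
    exact hne k this.1
  have hnp2 : ∀ k, ¬ (y2 k ++ [F^[k] f]) <+: (y1 k ++ [F^[k] f]) := by
    rintro k ⟨t, ht⟩
    have := first_unique (P := fun c => c ∉ S) (y := y2 k) (y' := y1 k) (f := F^[k] f) (f' := F^[k] f)
      (t := t) (t' := []) (fun c hc => by simpa using hy2S k c hc) (fun c hc => by simpa using hy1S k c hc)
      (hr.outj hf k) (hr.outj hf k) (by simpa using ht)
    exact hne k this.1.symm
  set Q : ℕ → List α := fun k => lcp (y1 k ++ [F^[k] f]) (y2 k ++ [F^[k] f]) with hQ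
  have hsplit : ∀ k, ∃ a b r s, y1 k ++ [F^[k] f] = Q k ++ a :: r ∧ y2 k ++ [F^[k] f] = Q k ++ b :: s ∧
      a ≠ b := fun k => lcp_split (hnp1 k) (hnp2 k)
  have hpre : ∀ {A B C : List α} {a d : α}, A ++ [d] = B ++ a :: C → B <+: A := by
    intro A B C a d hAB
    have h1 : B <+: A ++ [d] := ⟨a :: C, hAB.symm⟩
    apply List.prefix_of_prefix_length_le h1 (List.prefix_append A [d])
    have := congrArg List.length hAB
    simp at this
    omega
  have hQ1 : ∀ k, Q k <+: y1 k := by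
    intro k
    obtain ⟨a, b, r, s, h1, h2, h3⟩ := hsplit k
    exact hpre h1
  have hQ2 : ∀ k, Q k <+: y2 k := by
    intro k
    obtain ⟨a, b, r, s, h1, h2, h3⟩ := hsplit k
    exact hpre h2
  have hstep : ∀ k, V (E^[k] e) ++ img σ (Q k) <+: Q (k + 1) := by
    intro k
    apply prefix_lcp
    · have e1 : y1 (k + 1) = V (E^[k] e) ++ (img σ (y1 k)) ++ V' (F^[k] f) := by
        simp only [hy1]
        rw [VJ, VJ', itw_succ']
        simp
      obtain ⟨t, ht⟩ := hQ1 k
      rw [e1, ← ht, img_append]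
      exact ⟨img σ t ++ V' (F^[k] f) ++ [F^[k + 1] f], by simp⟩
    · have e1 : y2 (k + 1) = V (E^[k] e) ++ (img σ (y2 k)) ++ V' (F^[k] f) := by
        simp only [hy2]
        rw [VJ, VJ', itw_succ']
        simp
      obtain ⟨t, ht⟩ := hQ2 k
      rw [e1, ← ht, img_append]
      exact ⟨img σ t ++ V' (F^[k] f) ++ [F^[k + 1] f], by simp⟩
  have hQ0 : 1 ≤ (Q 0).countP G := by
    have : P <+: Q 0 := by
      apply prefix_lcp
      · simp only [hy1, VJ, VJ']
        simpa using hPY.trans (List.prefix_append Y [f])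
      · simp only [hy2, VJ, VJ']
        simpa using hPY'.trans (List.prefix_append Y' [f])
    obtain ⟨t, ht⟩ := this
    rw [← ht, List.countP_append]
    omega
  have hgrow : ∀ k, 2 * (Q k).countP G ≤ (Q (k + 1)).countP G := by
    intro k
    obtain ⟨t, ht⟩ := hstep k
    have h1 := h.count_img_ge (Q k)
    rw [← ht, List.countP_append, List.countP_append]
    omega
  have hQpos : ∀ k, 1 ≤ (Q k).countP G := by
    intro k
    induction k with
    | zero => exact hQ0
    | succ k ih => have := hgrow k; omega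
  refine ⟨(ρ + 1) * (Y.length + 3 + 2 * M) + 1, Q, ?_, ?_, ?_⟩
  · intro j c hc
    exact hy1S j c ((hQ1 j).subset hc)
  · apply strictMono_nat_of_lt_succ
    intro k
    have h1 := hgrow k
    have h2 := hQpos k
    omega
  · intro n j θ hθ hCn hbig
    obtain ⟨a, b, r, s, h1, h2, h3⟩ := hsplit j
    set L := LJ σ X E j e with hL
    -- the two factors
    have f1 : Fac u (L ++ E^[j] e :: Q j ++ [a]) := by
      apply (h.gen.fac_itw hfac j).of_infix
      refine ⟨[], r ++ LJ' σ X' F j f, ?_⟩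
      rw [itw_append, itw_cons, hl.itw_eq he j, hr.itw_eq hf j]
      have e1 : L ++ E^[j] e :: VJ σ V E j e ++ itw σ j Y ++ (VJ' σ V' F j f ++ F^[j] f :: LJ' σ X' F j f)
          = L ++ E^[j] e :: (y1 j ++ [F^[j] f]) ++ LJ' σ X' F j f := by
        simp [hy1]
      rw [e1, h1]
      simp
    have f2 : Fac u (L ++ E^[j] e :: Q j ++ [b]) := by
      apply (h.gen.fac_itw hfac' j).of_infix
      refine ⟨[], s ++ LJ' σ X' F j f, ?_⟩
      rw [itw_append, itw_cons, hl.itw_eq he j, hr.itw_eq hf j]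
      have e1 : L ++ E^[j] e :: VJ σ V E j e ++ itw σ j Y' ++ (VJ' σ V' F j f ++ F^[j] f :: LJ' σ X' F j f)
          = L ++ E^[j] e :: (y2 j ++ [F^[j] f]) ++ LJ' σ X' F j f := by
        simp [hy2]
      rw [e1, h2]
      simp
    -- lengths
    have hV : (VJ σ V E j e).length ≤ (ρ + 1) * ((1 + 2 * M) * θ + 1) := by
      have i1 : VJ σ V E j e <:+: itw σ j [e] := ⟨L ++ [E^[j] e], [], by rw [hl.itw_eq he j, ← hL]; simp⟩
      have i2 := h.lemmaR hS.closed hS.sat j θ hθ i1 (hl.VJ_ins hS.closed he j)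
      have i3 := h.len_le ((h.gen.fac_itw_letter e j).of_infix i1)
      refine i3.trans (Nat.mul_le_mul_left _ ?_)
      simpa using i2
    have hQl : (Q j).length ≤ (ρ + 1) * ((Y.length + 2 + 2 * M) * θ + 1) := by
      have i1 : y1 j <:+: itw σ j (e :: Y ++ [f]) := by
        refine ⟨L ++ [E^[j] e], F^[j] f :: LJ' σ X' F j f, ?_⟩
        rw [itw_append, itw_cons, hl.itw_eq he j, hr.itw_eq hf j]
        simp [hy1]
        rfl
      have i2 := h.lemmaR hS.closed hS.sat j θ hθ i1 (hy1S j)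
      have i3 := h.len_le ((h.gen.fac_itw hfac j).of_infix i1)
      refine ((hQ1 j).length_le.trans i3).trans (Nat.mul_le_mul_left _ ?_)
      refine Nat.add_le_add_right (i2.trans (Nat.mul_le_mul_right _ ?_)) 1
      simp
    have hbig' := hbig e he
    have hlen : (itw σ j [e]).length = L.length + 1 + (VJ σ V E j e).length := by
      rw [hl.itw_eq he j, ← hL]; simp; omega
    have hlv : lv σ G j [e] ≤ (itw σ j [e]).length := List.countP_le_length
    have hθ1 : (ρ + 1) * ((1 + 2 * M) * θ + 1) ≤ ((ρ + 1) * (Y.length + 3 + 2 * M) + 1) * (θ + 1) := by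
      have : (1 + 2 * M) * θ + 1 ≤ (Y.length + 3 + 2 * M) * (θ + 1) := by nlinarith
      nlinarith
    have hθ2 : (ρ + 1) * ((Y.length + 2 + 2 * M) * θ + 1) < ((ρ + 1) * (Y.length + 3 + 2 * M) + 1) * (θ + 1) := by
      have : (Y.length + 2 + 2 * M) * θ + 1 ≤ (Y.length + 3 + 2 * M) * (θ + 1) := by nlinarith
      nlinarith
    have hQn : (Q j).length < n := by omega
    have hLn : n ≤ (L ++ E^[j] e :: Q j).length := by
      simp only [List.length_append, List.length_cons]
      omega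
    refine ⟨suf n (L ++ E^[j] e :: Q j), ⟨?_, a, b, h3, ?_, ?_⟩, ?_⟩
    · rw [suf_length]; omega
    · apply f1.of_infix
      obtain ⟨t, ht⟩ := suf_suffix n (L ++ E^[j] e :: Q j)
      exact ⟨t, [], by rw [List.append_nil, ← List.append_assoc, ht]⟩
    · apply f2.of_infix
      obtain ⟨t, ht⟩ := suf_suffix n (L ++ E^[j] e :: Q j)
      exact ⟨t, [], by rw [List.append_nil, ← List.append_assoc, ht]⟩
    · have : (E^[j] e :: Q j) <:+ suf n (L ++ E^[j] e :: Q j) := by
        apply suffix_suf (List.suffix_append _ _)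
        simp only [List.length_cons]
        omega
      obtain ⟨v, hv⟩ := this
      exact ⟨v, E^[j] e, hv.symm, hl.outj he j⟩

end CaseI

end Pool.Agent.H89.Mor
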