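import Pool.Agent.H89.Mor.CILower

set_option autoImplicit false

namespace Pool.Agent.H89.Mor

variable {α : Type}

namespace CaseI
variable {u : ℕ → α} {σ : α → List α} {G : α → Bool} {ρ M : ℕ}

/-- slow letters at level `k` for length `n` -/
def slow (σ : α → List α) (G : α → Bool) (n k : ℕ) : Set α := {b | lv σ G k [b] < n}

lemma slow_anti (h : CaseI u σ G ρ M) (n : ℕ) {k l : ℕ} (hkl : k ≤ l) :
    slow σ G n l ⊆ slow σ G n k := by
  intro b hb
  exact lt_of_le_of_lt (h.lv_mono hkl [b]) hb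

lemma lv_start_le (h : CaseI u σ G ρ M) {x : List α} (hx : σ (u 0) = u 0 :: x) :
    ∀ k θ, (∀ c ∈ x, lv σ G k [c] ≤ θ) → lv σ G k [u 0] ≤ 1 + 2 * M * θ := by
  intro k
  induction k with
  | zero => intro θ _; rw [lv_zero]; simp [h.start]
  | succ k ih =>
    intro θ hθ
    have hθ' : ∀ c ∈ x, lv σ G k [c] ≤ θ / 2 := by
      intro c hc
      have h1 := hθ c hc
      have h2 := h.lv_ge 1 k [c]
      rw [Nat.add_comm 1 k] at h2
      omega
    have h1 := ih (θ / 2) hθ'
    have h2 : lv σ G (k + 1) [u 0] = lv σ G k [u 0] + lv σ G k x := by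
      rw [lv_add, itw_one, img_singleton, hx, lv_cons]
    have h3 : lv σ G k x ≤ x.length * (θ / 2) := lv_le_sum hθ'
    have h4 : x.length ≤ M := by
      have := h.hM (u 0)
      rw [hx, List.length_cons] at this
      omega
    have h5 : x.length * (θ / 2) ≤ M * (θ / 2) := Nat.mul_le_mul_right _ h4
    have h6 : 2 * (θ / 2) ≤ θ := Nat.mul_div_le θ 2
    rw [h2]
    nlinarith

lemma good_of_run (h : CaseI u σ G ρ M) {c n : ℕ} (hc : 4 * M ≤ 2 ^ c) (hc1 : 1 ≤ c) (hn : 3 ≤ n)
    {S : Set α} {a : ℕ} (ha1 : k1 σ G n ≤ a) (ha0 : a < k0 σ G n)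
    (hS : ∀ k, a ≤ k → k ≤ a + c → slow σ G n k = S) : Good u σ G S := by
  have hSa : slow σ G n a = S := hS a le_rfl (by omega)
  have hSa1 : slow σ G n (a + 1) = S := hS (a + 1) (by omega) (by omega)
  have hsmall : ∀ b ∈ S, lv σ G a [b] ≤ n / 2 ^ c := by
    intro b hb
    rw [← hS (a + c) (by omega) le_rfl] at hb
    have h1 : lv σ G (a + c) [b] < n := hb
    have h2 := h.lv_ge c a [b]
    rw [Nat.add_comm c a] at h2
    rw [Nat.le_div_iff_mul_le (by positivity)]
    nlinarith
  have hdiv : 2 ^ c * (n / 2 ^ c) ≤ n := Nat.mul_div_le n _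
  have hclosed : ∀ b ∈ S, ∀ c ∈ σ b, c ∈ S := by
    intro b hb c hc
    rw [← hSa1] at hb
    rw [← hSa]
    have h1 : lv σ G (a + 1) [b] < n := hb
    have h2 : lv σ G (a + 1) [b] = lv σ G a (σ b) := by rw [lv_add, itw_one, img_singleton]
    exact lt_of_le_of_lt (lv_mem a hc) (h2 ▸ h1)
  have hstart : u 0 ∉ S := by
    intro h0
    -- all letters in S
    have hall : ∀ b, b ∈ S := by
      intro b
      obtain ⟨k, hk⟩ := h.gen.letter_mem b
      exact closed_itw hclosed k (by simpa using h0) b hk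
    obtain ⟨g, hg, hgn⟩ := h.k1_spec n
    have h1 := hall g
    rw [← hSa] at h1
    have h2 : lv σ G a [g] < n := h1
    have h3 := h.lv_mono ha1 [g]
    omega
  refine ⟨hclosed, ?_, ?_, ?_, hstart, ?_⟩
  · intro b hb
    rw [← hSa1]
    show lv σ G (a + 1) [b] < n
    have h2 : lv σ G (a + 1) [b] = lv σ G a (σ b) := by rw [lv_add, itw_one, img_singleton]
    have h3 : lv σ G a (σ b) ≤ (σ b).length * (n / 2 ^ c) := lv_le_sum (fun c hc => hsmall c (hb c hc))
    have h4 : (σ b).length * (n / 2 ^ c) ≤ M * (n / 2 ^ c) := Nat.mul_le_mul_right _ (h.hM b)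
    have h5 : 4 * M * (n / 2 ^ c) ≤ n := le_trans (Nat.mul_le_mul_right _ hc) hdiv
    rw [h2]
    have h6 : 4 * (M * (n / 2 ^ c)) ≤ n := by rw [← mul_assoc]; exact h5
    omega
  · intro b hb
    rw [← hSa]
    show lv σ G a [b] < n
    rw [h.lv_free a (by simpa using hb)]
    omega
  · by_contra hcon
    push Not at hcon
    have : k0 σ G n ≤ a := by
      apply k0_le
      intro g hg
      by_contra hlt
      push Not at hlt
      have h1 : g ∈ S := by rw [← hSa]; exact hlt
      have h2 := hcon g h1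
      simp [hg] at h2
    omega
  · have h1 : 1 ≤ (σ (u 0)).length := by
      have := h.dbl (u 0) h.start
      have := List.countP_le_length (p := G) (l := σ (u 0))
      omega
    have h2 := h.gen.pre_iter 1
    rw [itw_one, img_singleton] at h2
    obtain ⟨m, hm⟩ := Nat.exists_eq_add_of_le h1
    rw [hm, win_add, win_one] at h2
    refine ⟨win u (0 + 1) m, by rw [← h2]; rfl, ?_⟩
    by_contra hcon
    push Not at hcon
    have hx : σ (u 0) = u 0 :: win u (0 + 1) m := by rw [← h2]; rfl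
    have h3 := h.lv_start_le hx a (n / 2 ^ c) (fun c hc => hsmall c (hcon c hc))
    apply hstart
    rw [← hSa]
    show lv σ G a [u 0] < n
    have h5 : 4 * M * (n / 2 ^ c) ≤ n := le_trans (Nat.mul_le_mul_right _ hc) hdiv
    have h6 : 2 * (2 * M * (n / 2 ^ c)) ≤ n := by nlinarith
    omega

theorem rs_lower [Fintype α] (h : CaseI u σ G ρ M) : ∃ D n₁, ∀ n, n₁ ≤ n →
    KK σ G n ≤ D * ((RS u n).ncard + D) := by
  classical
  have hex : ∀ S : Set α, ∃ (C : ℕ) (Q : ℕ → List α), Good u σ G S →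
      ((∀ j, ∀ c ∈ Q j, c ∈ S) ∧ (StrictMono fun j => (Q j).countP G) ∧
      ∀ n j θ, (∀ b ∈ S, lv σ G j [b] ≤ θ) → C * (θ + 1) ≤ n → (∀ b, b ∉ S → 2 * n ≤ lv σ G j [b]) →
        ∃ w ∈ RS u n, ∃ v e, w = v ++ e :: Q j ∧ e ∉ S) := by
    intro S
    by_cases hS : Good u σ G S
    · obtain ⟨C, Q, hCQ⟩ := h.exists_specials hS
      exact ⟨C, Q, fun _ => hCQ⟩
    · exact ⟨0, fun _ => [], fun h => absurd h hS⟩
  choose C Q hCQ using hex
  set Cm := (Finset.univ : Finset (Set α)).sup C with hCm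
  have hCle : ∀ S, C S ≤ Cm := fun S => Finset.le_sup (Finset.mem_univ S)
  set c := 4 * M + 2 * Cm with hc
  have hM1 := h.M1
  have hc2 : c ≤ 2 ^ c := (Nat.lt_two_pow_self).le
  have hcM : 4 * M ≤ 2 ^ c := by omega
  have hcC : 2 * Cm ≤ 2 ^ c := by omega
  set NS := (Finset.univ : Finset (Set α)).card with hNS
  refine ⟨NS + c + 1, 3 + 2 * Cm, fun n hn => ?_⟩
  set R := (RS u n).ncard with hR
  have hdiv : 2 ^ c * (n / 2 ^ c) ≤ n := Nat.mul_div_le n _
  -- fibre bound
  have hfib : ∀ S : Set α, ((Finset.Ico (k1 σ G n) (k0 σ G n)).filter (fun k => slow σ G n k = S)).card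
      ≤ R + c + 1 := by
    intro S
    set T := (Finset.Ico (k1 σ G n) (k0 σ G n)).filter (fun k => slow σ G n k = S) with hT
    by_cases hbig : T.card ≤ c + 1
    · omega
    push Not at hbig
    have hne : T.Nonempty := by
      rw [← Finset.card_pos]; omega
    set a := T.min' hne with ha
    set b := T.max' hne with hb
    have haT : a ∈ T := T.min'_mem hne
    have hbT : b ∈ T := T.max'_mem hne
    have hmem : ∀ k, k ∈ T ↔ (k1 σ G n ≤ k ∧ k < k0 σ G n) ∧ slow σ G n k = S := by
      intro k; rw [hT, Finset.mem_filter, Finset.mem_Ico]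
    have hsub : T ⊆ Finset.Icc a b := by
      intro k hk
      rw [Finset.mem_Icc]
      exact ⟨T.min'_le k hk, T.le_max' k hk⟩
    have hcard : T.card ≤ b + 1 - a := by
      have := Finset.card_le_card hsub
      rwa [Nat.card_Icc] at this
    have hin : ∀ k, a ≤ k → k ≤ b → slow σ G n k = S := by
      intro k h1 h2
      have ea := ((hmem a).1 haT).2
      have eb := ((hmem b).1 hbT).2
      apply Set.Subset.antisymm
      · rw [← ea]; exact h.slow_anti n h1
      · rw [← eb]; exact h.slow_anti n h2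
    have ha' := ((hmem a).1 haT).1
    have hab : a + c + 1 ≤ b := by omega
    have hgood : Good u σ G S := h.good_of_run hcM (by omega) (by omega) ha'.1 ha'.2
      (fun k h1 h2 => hin k h1 (by omega))
    obtain ⟨hQS, hQm, hQ⟩ := hCQ S hgood
    -- injection
    have hinj : (Finset.Icc (a + 1) (b - c)).card ≤ (RS_finite u n).toFinset.card := by
      apply Finset.card_le_card_of_forall_subsingleton
        (fun j w => w ∈ RS u n ∧ ∃ v e, w = v ++ e :: Q S j ∧ e ∉ S)
      · intro j hj
        rw [Finset.mem_Icc] at hj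
        have hθ : ∀ b' ∈ S, lv σ G j [b'] ≤ n / 2 ^ c := by
          intro b' hb'
          rw [← hin (j + c) (by omega) (by omega)] at hb'
          have h1 : lv σ G (j + c) [b'] < n := hb'
          have h2 := h.lv_ge c j [b']
          rw [Nat.add_comm c j] at h2
          rw [Nat.le_div_iff_mul_le (by positivity)]
          nlinarith
        have hCn : C S * (n / 2 ^ c + 1) ≤ n := by
          have h1 := hCle S
          have h2 : C S * (n / 2 ^ c + 1) ≤ Cm * (n / 2 ^ c + 1) := Nat.mul_le_mul_right _ h1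
          have h3 : 2 * Cm * (n / 2 ^ c) ≤ n := le_trans (Nat.mul_le_mul_right _ hcC) hdiv
          have h4 : 2 * (Cm * (n / 2 ^ c)) ≤ n := by rw [← mul_assoc]; exact h3
          have h5 : Cm * (n / 2 ^ c + 1) = Cm * (n / 2 ^ c) + Cm := by ring
          omega
        have hbg : ∀ b', b' ∉ S → 2 * n ≤ lv σ G j [b'] := by
          intro b' hb'
          rw [← hin (j - 1) (by omega) (by omega)] at hb'
          have h1 : n ≤ lv σ G (j - 1) [b'] := by
            by_contra hcon
            push Not at hcon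
            exact hb' hcon
          have h2 := h.lv_ge 1 (j - 1) [b']
          have e : 1 + (j - 1) = j := by omega
          rw [e] at h2
          omega
        obtain ⟨w, hw, v, e, hwe, he⟩ := hQ n j _ hθ hCn hbg
        exact ⟨w, (Set.Finite.mem_toFinset _).2 hw, hw, v, e, hwe, he⟩
      · rintro w - j₁ ⟨-, -, v₁, e₁, h₁, he₁⟩ j₂ ⟨-, -, v₂, e₂, h₂, he₂⟩
        have := last_unique (P := fun c => c ∉ S) (fun c hc => by simpa using hQS j₁ c hc)
          (fun c hc => by simpa using hQS j₂ c hc) he₁ he₂ (h₁.symm.trans h₂)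
        apply hQm.injective
        simp only
        rw [this.2.2]
    rw [Nat.card_Icc, ← Set.ncard_eq_toFinset_card (RS u n) (RS_finite u n), ← hR] at hinj
    omega
  have hsum : KK σ G n = ∑ S : Set α,
      ((Finset.Ico (k1 σ G n) (k0 σ G n)).filter (fun k => slow σ G n k = S)).card := by
    have := Finset.card_eq_sum_card_fiberwise (s := Finset.Ico (k1 σ G n) (k0 σ G n))
      (t := (Finset.univ : Finset (Set α))) (f := fun k => slow σ G n k) (fun _ _ => by simp)
    rw [Nat.card_Ico] at this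
    exact this
  rw [hsum]
  calc _ ≤ ∑ _S : Set α, (R + c + 1) := Finset.sum_le_sum (fun S _ => hfib S)
    _ = NS * (R + c + 1) := by rw [Finset.sum_const, smul_eq_mul]
    _ ≤ (NS + c + 1) * (R + (NS + c + 1)) := by nlinarith [Nat.zero_le R, Nat.zero_le c, Nat.zero_le NS]

/-- **Case I** -/
theorem main [Fintype α] (h : CaseI u σ G ρ M)
    (hu : ¬ ∃ N p : ℕ, 0 < p ∧ ∀ n, N ≤ n → u (n + p) = u n) :
    (fun n : ℕ => ((pc u (n + 1) : ℕ) : ℝ) - (pc u n : ℝ)) =Θ[Filter.atTop]
      (fun n : ℕ => (pc u n : ℝ) / (n : ℝ)) := by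
  obtain ⟨D₁, n₁, hlow⟩ := h.rs_lower
  obtain ⟨D₂, hup⟩ := h.rs_upper
  obtain ⟨D₃, hpc⟩ := h.pc_upper
  have hR1 : ∀ n, 1 ≤ (RS u n).ncard := RS_nonempty u hu
  -- κ n = KK n + 1
  have hlow' : ∀ n, n₁ ≤ n → KK σ G n + 1 ≤ (D₁ + D₁ * D₁ + 1) * (RS u n).ncard := by
    intro n hn
    have h1 := hlow n hn
    have h2 := hR1 n
    nlinarith [Nat.zero_le (D₁ * D₁)]
  have hup' : ∀ n, ρ + 6 ≤ n → (RS u n).ncard ≤ (2 * D₂) * (KK σ G n + 1) := by
    intro n hn
    have h1 := hup n hn
    have h2 := h.KK_le_of (m := n) (n := n + 1) (by omega) (by omega)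
    nlinarith
  set n₀ := 2 * (n₁ + ρ + 10) with hn₀
  set E := D₁ + D₁ * D₁ + 1 with hE
  -- lower bound for pc
  have hpl : ∀ n, n₀ ≤ n → n * (KK σ G n + 1) ≤ (6 * E) * pc u n := by
    intro n hn
    -- sum over m in [n/2, n)
    have hstep : ∀ t, (n - n / 2) + t ≤ n → t * (KK σ G n + 1) ≤ 2 * E * pc u ((n - n / 2) + t) := by
      intro t
      induction t with
      | zero => intro _; simp
      | succ t ih =>
        intro ht
        have h1 := ih (by omega)
        have h2 := pc_add_RS_le u ((n - n / 2) + t)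
        have h3 := hlow' ((n - n / 2) + t) (by omega)
        have h4 := h.KK_le_of (m := (n - n / 2) + t) (n := n) (by omega) (by omega)
        have e : (n - n / 2) + (t + 1) = (n - n / 2) + t + 1 := by ring
        rw [e]
        nlinarith
    have h1 := hstep (n / 2) (by omega)
    have e : (n - n / 2) + n / 2 = n := by omega
    rw [e] at h1
    have h2 : n ≤ 3 * (n / 2) := by omega
    calc n * (KK σ G n + 1) ≤ (3 * (n / 2)) * (KK σ G n + 1) := Nat.mul_le_mul_right _ h2
      _ = 3 * ((n / 2) * (KK σ G n + 1)) := by ring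
      _ ≤ 3 * (2 * E * pc u n) := Nat.mul_le_mul_left _ h1
      _ = _ := by ring
  apply theta_of_bounds (r := fun n => (RS u n).ncard) (κ := fun n => KK σ G n + 1)
    (A := Fintype.card α) (D := 6 * E + 2 * D₂ + D₃ + 1) (n₀ := n₀) (by omega)
    (fun n => pc_add_RS_le u n) (fun n => pc_succ_le u n)
  · intro n hn
    exact (hlow' n (by omega)).trans (Nat.mul_le_mul_right _ (by omega))
  · intro n hn
    exact (hup' n (by omega)).trans (Nat.mul_le_mul_right _ (by omega))
  · intro n hn
    exact (hpl n hn).trans (Nat.mul_le_mul_right _ (by omega))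
  · intro n hn
    exact (hpc n (by omega)).trans (Nat.mul_le_mul_right _ (by omega))

end CaseI

end Pool.Agent.H89.Mor
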