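import Pool.Agent.H89.Mor.Base

set_option autoImplicit false

namespace Pool.Agent.H89.Mor

variable {α : Type}

lemma win_eq_ofFn (u : ℕ → α) (i n : ℕ) : win u i n = List.ofFn (fun j : Fin n => u (i + j.val)) := by
  apply List.ext_getElem
  · simp
  · intro j h1 h2
    simp [win]

/-- factor complexity -/
noncomputable def pc (u : ℕ → α) (n : ℕ) : ℕ := (Set.range (fun i : ℕ => win u i n)).ncard

lemma pc_eq (u : ℕ → α) (n : ℕ) :
    (Set.range (fun i : ℕ => fun j : Fin n => u (i + j.val))).ncard = pc u n := by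
  unfold pc
  have h : Set.range (fun i : ℕ => win u i n) =
      (fun f : Fin n → α => List.ofFn f) '' Set.range (fun i : ℕ => fun j : Fin n => u (i + j.val)) := by
    ext w
    constructor
    · rintro ⟨i, rfl⟩
      exact ⟨_, ⟨i, rfl⟩, (win_eq_ofFn u i n).symm⟩
    · rintro ⟨_, ⟨i, rfl⟩, rfl⟩
      exact ⟨i, win_eq_ofFn u i n⟩
  rw [h, Set.ncard_image_of_injective _ List.ofFn_injective]

/-- factors of length `n` -/
def FacN (u : ℕ → α) (n : ℕ) : Set (List α) := {w | w.length = n ∧ Fac u w}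

/-- right special factors of length `n` -/
def RS (u : ℕ → α) (n : ℕ) : Set (List α) :=
  {w | w.length = n ∧ ∃ a b, a ≠ b ∧ Fac u (w ++ [a]) ∧ Fac u (w ++ [b])}

lemma range_win_eq (u : ℕ → α) (n : ℕ) : Set.range (fun i : ℕ => win u i n) = FacN u n := by
  ext w
  constructor
  · rintro ⟨i, rfl⟩
    exact ⟨by simp, fac_win u i n⟩
  · rintro ⟨h1, i, hi⟩
    exact ⟨i, by rw [← h1]; exact hi⟩

lemma pc_eq_ncard (u : ℕ → α) (n : ℕ) : pc u n = (FacN u n).ncard := by
  rw [pc, range_win_eq]

lemma RS_subset (u : ℕ → α) (n : ℕ) : RS u n ⊆ FacN u n := by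
  rintro w ⟨h1, a, b, -, h2, -⟩
  exact ⟨h1, h2.of_infix ⟨[], [a], by simp⟩⟩

section fin
variable [Fintype α]

lemma lists_finite (n : ℕ) : {w : List α | w.length = n}.Finite := List.finite_length_eq α n

lemma FacN_finite (u : ℕ → α) (n : ℕ) : (FacN u n).Finite :=
  (lists_finite n).subset (fun _ h => h.1)

lemma RS_finite (u : ℕ → α) (n : ℕ) : (RS u n).Finite :=
  (FacN_finite u n).subset (RS_subset u n)

theorem pc_add_RS_le (u : ℕ → α) (n : ℕ) : pc u n + (RS u n).ncard ≤ pc u (n + 1) := by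
  classical
  rw [pc_eq_ncard, pc_eq_ncard]
  have h1 : ∀ w : List α, ∃ a, Fac u w → Fac u (w ++ [a]) := by
    intro w
    by_cases hw : Fac u w
    · obtain ⟨a, ha⟩ := hw.ext_right
      exact ⟨a, fun _ => ha⟩
    · exact ⟨u 0, fun h => absurd h hw⟩
  choose e he using h1
  have h2 : ∀ w : List α, ∃ b, w ∈ RS u n → (b ≠ e w ∧ Fac u (w ++ [b])) := by
    intro w
    by_cases hw : w ∈ RS u n
    · obtain ⟨h1, a, b, hab, ha, hb⟩ := hw
      by_cases hae : a = e w
      · exact ⟨b, fun _ => ⟨fun h => hab (hae.trans h.symm), hb⟩⟩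
      · exact ⟨a, fun _ => ⟨hae, ha⟩⟩
    · exact ⟨u 0, fun h => absurd h hw⟩
  choose f hf using h2
  have hS1 : ((fun w => w ++ [e w]) '' FacN u n).ncard = (FacN u n).ncard := by
    apply Set.ncard_image_of_injOn
    intro w hw v hv hwv
    exact (List.append_inj hwv (by rw [hw.1, hv.1])).1
  have hS2 : ((fun w => w ++ [f w]) '' RS u n).ncard = (RS u n).ncard := by
    apply Set.ncard_image_of_injOn
    intro w hw v hv hwv
    exact (List.append_inj hwv (by rw [hw.1, hv.1])).1
  have hdis : Disjoint ((fun w => w ++ [e w]) '' FacN u n) ((fun w => w ++ [f w]) '' RS u n) := by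
    rw [Set.disjoint_left]
    rintro _ ⟨w, hw, rfl⟩ ⟨v, hv, hvw⟩
    obtain ⟨h3, h4⟩ := List.append_inj hvw (by rw [hw.1, hv.1])
    subst h3
    simp at h4
    exact (hf v hv).1 h4
  rw [← hS1, ← hS2, ← Set.ncard_union_eq hdis ((FacN_finite u n).image _) ((RS_finite u n).image _)]
  apply Set.ncard_le_ncard _ (FacN_finite u (n + 1))
  rintro _ (⟨w, hw, rfl⟩ | ⟨w, hw, rfl⟩)
  · exact ⟨by simp [hw.1], he w hw.2⟩
  · exact ⟨by simp [hw.1], (hf w hw).2⟩

theorem pc_succ_le (u : ℕ → α) (n : ℕ) :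
    pc u (n + 1) ≤ pc u n + Fintype.card α * (RS u n).ncard := by
  classical
  rw [pc_eq_ncard, pc_eq_ncard]
  have h1 : ∀ w : List α, ∃ a, Fac u w → Fac u (w ++ [a]) := by
    intro w
    by_cases hw : Fac u w
    · obtain ⟨a, ha⟩ := hw.ext_right
      exact ⟨a, fun _ => ha⟩
    · exact ⟨u 0, fun h => absurd h hw⟩
  choose e he using h1
  have hsub : FacN u (n + 1) ⊆ ((fun w => w ++ [e w]) '' FacN u n) ∪
      ((fun x : α × List α => x.2 ++ [x.1]) '' ((Set.univ : Set α) ×ˢ RS u n)) := by
    rintro v ⟨hv1, hv2⟩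
    have hne : v ≠ [] := by intro h; rw [h] at hv1; simp at hv1
    obtain ⟨w, c, rfl⟩ : ∃ w c, v = w ++ [c] :=
      ⟨v.dropLast, v.getLast hne, (List.dropLast_append_getLast hne).symm⟩
    have hwl : w.length = n := by simpa using hv1
    have hwf : Fac u w := hv2.of_infix ⟨[], [c], by simp⟩
    by_cases hc : c = e w
    · left
      exact ⟨w, ⟨hwl, hwf⟩, by rw [hc]⟩
    · right
      exact ⟨(c, w), ⟨trivial, hwl, c, e w, hc, hv2, he w hwf⟩, rfl⟩
  have hfin2 : ((Set.univ : Set α) ×ˢ RS u n).Finite := Set.finite_univ.prod (RS_finite u n)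
  calc (FacN u (n + 1)).ncard ≤ _ := Set.ncard_le_ncard hsub
        (((FacN_finite u n).image _).union (hfin2.image _))
    _ ≤ _ := Set.ncard_union_le _ _
    _ ≤ (FacN u n).ncard + ((Set.univ : Set α) ×ˢ RS u n).ncard :=
        Nat.add_le_add (Set.ncard_image_le (FacN_finite u n)) (Set.ncard_image_le hfin2)
    _ = _ := by rw [Set.ncard_prod, Set.ncard_univ, Nat.card_eq_fintype_card]

theorem RS_nonempty (u : ℕ → α) (hu : ¬ ∃ N p : ℕ, 0 < p ∧ ∀ n, N ≤ n → u (n + p) = u n) (n : ℕ) :
    1 ≤ (RS u n).ncard := by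
  classical
  by_contra hcon
  have h0 : (RS u n).ncard = 0 := by omega
  rw [Set.ncard_eq_zero (RS_finite u n)] at h0
  apply hu
  -- pigeonhole
  have hninj : ¬ Function.Injective (fun i : ℕ => win u i n) := by
    intro hinj
    have : (Set.range (fun i : ℕ => win u i n)).Finite := by
      rw [range_win_eq]; exact FacN_finite u n
    exact Set.infinite_range_of_injective hinj this
  have : ∃ i j, i < j ∧ win u i n = win u j n := by
    simp only [Function.Injective, not_forall] at hninj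
    obtain ⟨i, j, h, hne⟩ := hninj
    rcases lt_or_gt_of_ne hne with h' | h'
    · exact ⟨i, j, h', h⟩
    · exact ⟨j, i, h', h.symm⟩
  obtain ⟨i, j, hij, hw⟩ := this
  have key : ∀ t, win u (i + t) n = win u (j + t) n := by
    intro t
    induction t with
    | zero => exact hw
    | succ t ih =>
      -- next letters agree
      have e1 : win u (i + t) (n + 1) = win u (i + t) n ++ [u (i + t + n)] := by
        rw [win_add, win_one]
      have e2 : win u (j + t) (n + 1) = win u (j + t) n ++ [u (j + t + n)] := by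
        rw [win_add, win_one]
      have hlet : u (i + t + n) = u (j + t + n) := by
        by_contra hne
        have : win u (i + t) n ∈ RS u n := by
          refine ⟨by simp, _, _, hne, ?_, ?_⟩
          · rw [← e1]; exact fac_win _ _ _
          · rw [ih, ← e2]; exact fac_win _ _ _
        rw [h0] at this
        exact this
      have e3 : win u (i + t) (n + 1) = win u (j + t) (n + 1) := by
        rw [e1, e2, ih, hlet]
      rw [Nat.add_comm n 1, win_add, win_add] at e3
      have := (List.append_inj e3 (by simp)).2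
      simpa [Nat.add_assoc] using this
  have key2 : ∀ t, u (i + t) = u (j + t) := by
    intro t
    -- use next letter argument with n arbitrary
    rcases Nat.eq_zero_or_pos n with hn | hn
    · subst hn
      by_contra hne
      have : ([] : List α) ∈ RS u 0 := by
        refine ⟨rfl, _, _, hne, ?_, ?_⟩
        · exact ⟨i + t, by simp [win_one]⟩
        · exact ⟨j + t, by simp [win_one]⟩
      rw [h0] at this
      exact this
    · have := key t
      have h3 : (win u (i + t) n)[0]? = (win u (j + t) n)[0]? := by rw [this]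
      simpa [win, hn] using h3
  refine ⟨i, j - i, by omega, ?_⟩
  intro m hm
  have := key2 (m - i)
  have e1 : i + (m - i) = m := by omega
  have e2 : j + (m - i) = m + (j - i) := by omega
  rw [e1, e2] at this
  exact this.symm

end fin

/-! ### assembling -/

theorem theta_of_bounds {p r : ℕ → ℕ} {κ : ℕ → ℕ} {A D n₀ : ℕ} (hD : 1 ≤ D)
    (h1 : ∀ n, p n + r n ≤ p (n + 1)) (h2 : ∀ n, p (n + 1) ≤ p n + A * r n)
    (hκ1 : ∀ n, n₀ ≤ n → κ n ≤ D * r n) (hκ2 : ∀ n, n₀ ≤ n → r n ≤ D * κ n)
    (hκ3 : ∀ n, n₀ ≤ n → n * κ n ≤ D * p n) (hκ4 : ∀ n, n₀ ≤ n → p n ≤ D * (n * κ n)) :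
    (fun n : ℕ => ((p (n + 1) : ℕ) : ℝ) - (p n : ℝ)) =Θ[Filter.atTop]
      (fun n : ℕ => (p n : ℝ) / (n : ℝ)) := by
  have hD' : (1 : ℝ) ≤ (D : ℝ) := by exact_mod_cast hD
  constructor
  · apply Asymptotics.IsBigO.of_bound ((A : ℝ) * D * D)
    filter_upwards [Filter.eventually_ge_atTop (max n₀ 1)] with n hn
    have hn0 : n₀ ≤ n := le_trans (le_max_left _ _) hn
    have hn1 : 1 ≤ n := le_trans (le_max_right _ _) hn
    have hn1' : (1 : ℝ) ≤ (n : ℝ) := by exact_mod_cast hn1
    have a1 : (p n : ℝ) ≤ p (n + 1) := by exact_mod_cast le_trans (Nat.le_add_right _ _) (h1 n)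
    have a2 : (p (n + 1) : ℝ) ≤ p n + A * r n := by exact_mod_cast h2 n
    have a3 : (r n : ℝ) ≤ D * κ n := by exact_mod_cast hκ2 n hn0
    have a4 : (n : ℝ) * κ n ≤ D * p n := by exact_mod_cast hκ3 n hn0
    rw [Real.norm_of_nonneg (by linarith), Real.norm_of_nonneg (by positivity)]
    rw [mul_div_assoc', le_div_iff₀ (by linarith)]
    have hA : (0 : ℝ) ≤ A := by positivity
    have hκ0 : (0 : ℝ) ≤ κ n := by positivity
    have hr0 : (0 : ℝ) ≤ r n := by positivity
    calc ((p (n + 1) : ℝ) - p n) * n ≤ (A * r n) * n := by nlinarith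
      _ ≤ (A * (D * κ n)) * n := by
          apply mul_le_mul_of_nonneg_right _ (by linarith)
          exact mul_le_mul_of_nonneg_left a3 hA
      _ = A * D * (n * κ n) := by ring
      _ ≤ A * D * (D * p n) := mul_le_mul_of_nonneg_left a4 (by positivity)
      _ = A * D * D * p n := by ring
  · apply Asymptotics.IsBigO.of_bound ((D : ℝ) * D)
    filter_upwards [Filter.eventually_ge_atTop (max n₀ 1)] with n hn
    have hn0 : n₀ ≤ n := le_trans (le_max_left _ _) hn
    have hn1 : 1 ≤ n := le_trans (le_max_right _ _) hn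
    have hn1' : (1 : ℝ) ≤ (n : ℝ) := by exact_mod_cast hn1
    have a1 : (p n : ℝ) + r n ≤ p (n + 1) := by exact_mod_cast h1 n
    have a3 : (κ n : ℝ) ≤ D * r n := by exact_mod_cast hκ1 n hn0
    have a4 : (p n : ℝ) ≤ D * (n * κ n) := by exact_mod_cast hκ4 n hn0
    have hr0 : (0 : ℝ) ≤ r n := by positivity
    rw [Real.norm_of_nonneg (by positivity), Real.norm_of_nonneg (by linarith)]
    rw [div_le_iff₀ (by linarith)]
    calc (p n : ℝ) ≤ D * (n * κ n) := a4
      _ ≤ D * (n * (D * r n)) := by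
          apply mul_le_mul_of_nonneg_left _ (by positivity)
          exact mul_le_mul_of_nonneg_left a3 (by positivity)
      _ = D * D * r n * n := by ring
      _ ≤ D * D * ((p (n + 1) : ℝ) - p n) * n := by
          apply mul_le_mul_of_nonneg_right _ (by linarith)
          apply mul_le_mul_of_nonneg_left _ (by positivity)
          linarith

end Pool.Agent.H89.Mor
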