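import Mathlib

set_option autoImplicit false

namespace Pool.Agent.H89.Mor

variable {α : Type}

/-- `w` (of length `n`) occurs at position `t` of `X` followed by the letter `a` -/
def Occ (n : ℕ) (X : List α) (t : ℕ) (w : List α) (a : α) : Prop :=
  (∀ m, t ≤ m → m < t + n → X[m]? = w[m - t]?) ∧ X[t + n]? = some a

/-- the last `5 b` letters of `w` have a period between `1` and `2 b` -/
def PerA (n b : ℕ) (w : List α) (q : ℕ) : Prop :=
  1 ≤ q ∧ q ≤ 2 * b ∧ ∀ j, n - 5 * b ≤ j → j + q < n → w[j]? = w[j + q]?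

lemma occ_of_infix {n : ℕ} {X w : List α} {a : α} (hw : w.length = n) (h : (w ++ [a]) <:+: X) :
    ∃ t, t + n < X.length ∧ Occ n X t w a := by
  obtain ⟨s, r, rfl⟩ := h
  refine ⟨s.length, by simp [hw], ?_, ?_⟩
  · intro m h1 h2
    rw [List.append_assoc, List.getElem?_append_right h1, List.append_assoc,
      List.getElem?_append_left (by omega)]
  · rw [List.append_assoc, List.getElem?_append_right (by omega), List.append_assoc,
      List.getElem?_append_right (by omega)]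
    have : s.length + n - s.length - w.length = 0 := by omega
    rw [this]; simp

lemma occ_eq {n : ℕ} {X w v : List α} {t : ℕ} {a c : α} (hw : w.length = n) (hv : v.length = n)
    (h1 : Occ n X t w a) (h2 : Occ n X t v c) : w = v := by
  apply List.ext_getElem? 
  intro i
  by_cases hi : i < n
  · have e1 := h1.1 (t + i) (by omega) (by omega)
    have e2 := h2.1 (t + i) (by omega) (by omega)
    have : t + i - t = i := by omega
    rw [this] at e1 e2
    rw [← e1, ← e2]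
  · rw [List.getElem?_eq_none (by omega), List.getElem?_eq_none (by omega)]

lemma typeA_absurd {n b : ℕ} (hb : 6 * b ≤ n) {X w₁ w₂ : List α} {t₁ t₂ q₁ q₂ : ℕ}
    {a₁ a₂ : α} (h1 : Occ n X t₁ w₁ a₁) (h2 : Occ n X t₂ w₂ a₂)
    (hp1 : PerA n b w₁ q₁) (hp2 : PerA n b w₂ q₂)
    (hbr : w₁[n - q₁]? ≠ some a₁) (hlt : t₁ < t₂) (hbox : t₂ < t₁ + b) : False := by
  obtain ⟨p1, p2, p3⟩ := hp1
  obtain ⟨r1, r2, r3⟩ := hp2
  apply hbr
  have A1 : X[t₁ + n]? = X[t₁ + n - q₂]? := by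
    rw [h2.1 (t₁ + n) (by omega) (by omega), h2.1 (t₁ + n - q₂) (by omega) (by omega)]
    have := r3 (t₁ + n - q₂ - t₂) (by omega) (by omega)
    rw [this]
    congr 1
    omega
  have A2 : X[t₁ + n - q₁]? = X[t₁ + n - q₁ - q₂]? := by
    rw [h2.1 (t₁ + n - q₁) (by omega) (by omega), h2.1 (t₁ + n - q₁ - q₂) (by omega) (by omega)]
    have := r3 (t₁ + n - q₁ - q₂ - t₂) (by omega) (by omega)
    rw [this]
    congr 1
    omega
  have A3 : X[t₁ + n - q₂]? = X[t₁ + n - q₁ - q₂]? := by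
    rw [h1.1 (t₁ + n - q₂) (by omega) (by omega), h1.1 (t₁ + n - q₁ - q₂) (by omega) (by omega)]
    have := p3 (t₁ + n - q₁ - q₂ - t₁) (by omega) (by omega)
    rw [this]
    congr 1
    omega
  have A4 : X[t₁ + n - q₁]? = w₁[n - q₁]? := by
    rw [h1.1 (t₁ + n - q₁) (by omega) (by omega)]
    congr 1
    omega
  rw [← A4, A2, ← A3, ← A1]
  exact h1.2

lemma typeB_aux {n b : ℕ} (hb : 6 * b ≤ n) (hb1 : 1 ≤ b) {X Y w₁ w₂ : List α} {t₁ t₂ s₁ s₂ : ℕ}
    {a₁ b₁ a₂ b₂ : α} (hl1 : w₁.length = n) (hl2 : w₂.length = n)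
    (h1 : Occ n X t₁ w₁ a₁) (h1' : Occ n Y s₁ w₁ b₁)
    (h2 : Occ n X t₂ w₂ a₂) (h2' : Occ n Y s₂ w₂ b₂) (hab : a₁ ≠ b₁)
    (hnp : ∀ q, ¬ PerA n b w₁ q) (hle : t₁ ≤ t₂) (hbox : t₂ < t₁ + b)
    (hbox1 : s₂ < s₁ + b) (hbox2 : s₁ < s₂ + b) : w₁ = w₂ := by
  -- common part : z = X[t₂, t₁ + n)
  have Z : ∀ m, t₂ ≤ m → m < t₁ + n → w₁[m - t₁]? = w₂[m - t₂]? := by
    intro m m1 m2
    rw [← h1.1 m (by omega) m2, ← h2.1 m m1 (by omega)]
  rcases lt_trichotomy (t₁ + s₂) (t₂ + s₁) with hlt | heq | hgt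
  · -- period D = (t₂ + s₁) - (t₁ + s₂)
    exfalso
    set D := (t₂ + s₁) - (t₁ + s₂) with hD
    apply hnp D
    refine ⟨by omega, by omega, ?_⟩
    intro j j1 j2
    -- w₁[j] : position t₁ + j in X ; = w₂[t₁ + j - t₂] = Y[s₂ + t₁ + j - t₂] 
    have e1 : w₁[j]? = Y[s₁ + j]? := by
      rw [h1'.1 (s₁ + j) (by omega) (by omega)]; congr 1; omega
    have e2 : w₁[j + D]? = w₂[t₁ + j + D - t₂]? := by
      have := Z (t₁ + j + D) (by omega) (by omega)
      rw [← this]; congr 1; omega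
    have e3 : w₂[t₁ + j + D - t₂]? = Y[s₂ + (t₁ + j + D - t₂)]? := by
      rw [h2'.1 (s₂ + (t₁ + j + D - t₂)) (by omega) (by omega)]; congr 1; omega
    rw [e1, e2, e3]
    congr 1
    omega
  · -- same shift
    rcases Nat.lt_or_ge t₁ t₂ with hlt | hge
    · exfalso
      apply hab
      have e1 : X[t₁ + n]? = w₂[t₁ + n - t₂]? := h2.1 _ (by omega) (by omega)
      have e2 : Y[s₁ + n]? = w₂[s₁ + n - s₂]? := h2'.1 _ (by omega) (by omega)
      have e3 : t₁ + n - t₂ = s₁ + n - s₂ := by omega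
      rw [h1.2, e3, ← e2, h1'.2] at e1
      exact Option.some_injective _ e1
    · have : t₁ = t₂ := le_antisymm hle hge
      subst this
      exact occ_eq hl1 hl2 h1 h2
  · exfalso
    set D := (t₁ + s₂) - (t₂ + s₁) with hD
    apply hnp D
    refine ⟨by omega, by omega, ?_⟩
    intro j j1 j2
    have e1 : w₁[j + D]? = Y[s₁ + j + D]? := by
      rw [h1'.1 (s₁ + j + D) (by omega) (by omega)]; congr 1; omega
    have e2 : w₁[j]? = w₂[t₁ + j - t₂]? := by
      have := Z (t₁ + j) (by omega) (by omega)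
      rw [← this]; congr 1; omega
    have e3 : w₂[t₁ + j - t₂]? = Y[s₂ + (t₁ + j - t₂)]? := by
      rw [h2'.1 (s₂ + (t₁ + j - t₂)) (by omega) (by omega)]; congr 1; omega
    rw [e1, e2, e3]
    congr 1
    omega

lemma box_lt {b t t' : ℕ} (hb : 1 ≤ b) (h : t / b = t' / b) : t' < t + b := by
  have h1 := Nat.div_add_mod t b
  have h2 := Nat.div_add_mod t' b
  have h3 := Nat.mod_lt t (by omega : b > 0)
  have h4 := Nat.mod_lt t' (by omega : b > 0)
  rw [h] at h1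
  omega

theorem pairs_lemma {ι : Type} (n c : ℕ) (hn : 6 ≤ n) (R : Finset (List α))
    (hlen : ∀ w ∈ R, w.length = n) (I : Finset ι) (X Y : ι → List α)
    (hX : ∀ i ∈ I, (X i).length ≤ c * n) (hY : ∀ i ∈ I, (Y i).length ≤ c * n)
    (h : ∀ w ∈ R, ∃ i ∈ I, ∃ a b, a ≠ b ∧ (w ++ [a]) <:+: X i ∧ (w ++ [b]) <:+: Y i) :
    R.card ≤ (2 * (12 * c + 1) + (12 * c + 1) ^ 2) * I.card := by
  classical
  set b := n / 6 with hbdef
  have hb1 : 1 ≤ b := by omega
  have hb6 : 6 * b ≤ n := by omega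
  have hb12 : n ≤ 12 * b := by omega
  have hbox : ∀ t, t ≤ c * n → t / b < 12 * c + 1 := by
    intro t ht
    have h1 : t ≤ (12 * c) * b := by nlinarith
    have : t / b ≤ 12 * c := by
      apply Nat.div_le_of_le_mul
      linarith
    omega
  set RA := R.filter (fun w => ∃ q, PerA n b w q) with hRA
  set RB := R.filter (fun w => ¬ ∃ q, PerA n b w q) with hRB
  have hsplit : R.card = RA.card + RB.card := by
    rw [hRA, hRB, Finset.card_filter_add_card_filter_not]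
  -- type A
  have hA : RA.card ≤ (I ×ˢ ((Finset.univ : Finset Bool) ×ˢ Finset.range (12 * c + 1))).card := by
    apply Finset.card_le_card_of_forall_subsingleton
      (fun w (x : ι × Bool × ℕ) => ∃ t a q, Occ n (if x.2.1 then X x.1 else Y x.1) t w a ∧
        PerA n b w q ∧ w[n - q]? ≠ some a ∧ t / b = x.2.2)
    · intro w hw
      rw [hRA, Finset.mem_filter] at hw
      obtain ⟨hwR, q, hq⟩ := hw
      obtain ⟨i, hi, a, b', hab, h1, h2⟩ := h w hwR
      obtain ⟨t, ht, ho⟩ := occ_of_infix (hlen w hwR) h1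
      obtain ⟨t', ht', ho'⟩ := occ_of_infix (hlen w hwR) h2
      have hXi := hX i hi
      have hYi := hY i hi
      by_cases hbr : w[n - q]? = some a
      · have hbr' : w[n - q]? ≠ some b' := by
          rw [hbr]; intro h; exact hab (Option.some_injective _ h)
        refine ⟨(i, false, t' / b), ?_, t', b', q, ho', hq, hbr', rfl⟩
        simp only [Finset.mem_product, Finset.mem_univ, Finset.mem_range, true_and]
        exact ⟨hi, hbox t' (by omega)⟩
      · refine ⟨(i, true, t / b), ?_, t, a, q, ho, hq, hbr, rfl⟩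
        simp only [Finset.mem_product, Finset.mem_univ, Finset.mem_range, true_and]
        exact ⟨hi, hbox t (by omega)⟩
    · rintro ⟨i, s, m⟩ -
      rintro w₁ ⟨hw₁, t₁, a₁, q₁, ho₁, hp₁, hb₁, e₁⟩ w₂ ⟨hw₂, t₂, a₂, q₂, ho₂, hp₂, hb₂, e₂⟩
      simp only at ho₁ ho₂ e₁ e₂
      have hl₁ := hlen w₁ (Finset.mem_of_mem_filter _ hw₁)
      have hl₂ := hlen w₂ (Finset.mem_of_mem_filter _ hw₂)
      rcases lt_trichotomy t₁ t₂ with hlt | heq | hgt
      · exact (typeA_absurd hb6 ho₁ ho₂ hp₁ hp₂ hb₁ hlt (box_lt hb1 (e₁.trans e₂.symm))).elim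
      · subst heq
        exact occ_eq hl₁ hl₂ ho₁ ho₂
      · exact (typeA_absurd hb6 ho₂ ho₁ hp₂ hp₁ hb₂ hgt (box_lt hb1 (e₂.trans e₁.symm))).elim
  have hB : RB.card ≤ (I ×ˢ (Finset.range (12 * c + 1) ×ˢ Finset.range (12 * c + 1))).card := by
    apply Finset.card_le_card_of_forall_subsingleton
      (fun w (x : ι × ℕ × ℕ) => ∃ t t' a b', a ≠ b' ∧ Occ n (X x.1) t w a ∧ Occ n (Y x.1) t' w b' ∧
        (∀ q, ¬ PerA n b w q) ∧ t / b = x.2.1 ∧ t' / b = x.2.2)
    · intro w hw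
      rw [hRB, Finset.mem_filter] at hw
      obtain ⟨hwR, hq⟩ := hw
      push Not at hq
      obtain ⟨i, hi, a, b', hab, h1, h2⟩ := h w hwR
      obtain ⟨t, ht, ho⟩ := occ_of_infix (hlen w hwR) h1
      obtain ⟨t', ht', ho'⟩ := occ_of_infix (hlen w hwR) h2
      have hXi := hX i hi
      have hYi := hY i hi
      refine ⟨(i, t / b, t' / b), ?_, t, t', a, b', hab, ho, ho', hq, rfl, rfl⟩
      simp only [Finset.mem_product, Finset.mem_range]
      exact ⟨hi, hbox t (by omega), hbox t' (by omega)⟩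
    · rintro ⟨i, m, m'⟩ -
      rintro w₁ ⟨hw₁, t₁, s₁, a₁, b₁, hab₁, ho₁, ho₁', hq₁, e₁, e₁'⟩
        w₂ ⟨hw₂, t₂, s₂, a₂, b₂, hab₂, ho₂, ho₂', hq₂, e₂, e₂'⟩
      simp only at ho₁ ho₂ ho₁' ho₂' e₁ e₂ e₁' e₂'
      have hl₁ := hlen w₁ (Finset.mem_of_mem_filter _ hw₁)
      have hl₂ := hlen w₂ (Finset.mem_of_mem_filter _ hw₂)
      rcases le_total t₁ t₂ with hle | hle
      · exact typeB_aux hb6 hb1 hl₁ hl₂ ho₁ ho₁' ho₂ ho₂' hab₁ hq₁ hle
          (box_lt hb1 (e₁.trans e₂.symm)) (box_lt hb1 (e₁'.trans e₂'.symm))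
          (box_lt hb1 (e₂'.trans e₁'.symm))
      · exact (typeB_aux hb6 hb1 hl₂ hl₁ ho₂ ho₂' ho₁ ho₁' hab₂ hq₂ hle
          (box_lt hb1 (e₂.trans e₁.symm)) (box_lt hb1 (e₂'.trans e₁'.symm))
          (box_lt hb1 (e₁'.trans e₂'.symm))).symm
  rw [hsplit]
  refine (Nat.add_le_add hA hB).trans ?_
  simp only [Finset.card_product, Finset.card_univ, Fintype.card_bool, Finset.card_range]
  apply le_of_eq
  ring

end Pool.Agent.H89.Mor
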