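import Pool.Agent.H89.Mor.CI
import Pool.Agent.H89.Mor.Diff
import Pool.Agent.H89.Mor.Pairs

set_option autoImplicit false

namespace Pool.Agent.H89.Mor

variable {α : Type}

/-- first level at which all growing letters have size at least `N` -/
noncomputable def k0 (σ : α → List α) (G : α → Bool) (N : ℕ) : ℕ :=
  sInf {k | ∀ g, G g = true → N ≤ lv σ G k [g]}

/-- first level at which some growing letter has size at least `N` -/
noncomputable def k1 (σ : α → List α) (G : α → Bool) (N : ℕ) : ℕ :=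
  sInf {k | ∃ g, G g = true ∧ N ≤ lv σ G k [g]}

/-- number of relevant levels -/
noncomputable def KK (σ : α → List α) (G : α → Bool) (N : ℕ) : ℕ := k0 σ G N - k1 σ G N

namespace CaseI
variable {u : ℕ → α} {σ : α → List α} {G : α → Bool} {ρ M : ℕ}

lemma k0_spec (h : CaseI u σ G ρ M) (N : ℕ) : ∀ g, G g = true → N ≤ lv σ G (k0 σ G N) [g] := by
  have : {k | ∀ g, G g = true → N ≤ lv σ G k [g]}.Nonempty :=
    ⟨N, fun g hg => (Nat.lt_two_pow_self).le.trans (h.lv_pos hg N)⟩
  exact Nat.sInf_mem this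

lemma k0_le (N k : ℕ) (hk : ∀ g, G g = true → N ≤ lv σ G k [g]) : k0 σ G N ≤ k :=
  Nat.sInf_le hk

lemma k1_spec (h : CaseI u σ G ρ M) (N : ℕ) : ∃ g, G g = true ∧ N ≤ lv σ G (k1 σ G N) [g] := by
  have : {k | ∃ g, G g = true ∧ N ≤ lv σ G k [g]}.Nonempty :=
    ⟨N, u 0, h.start, (Nat.lt_two_pow_self).le.trans (h.lv_pos h.start N)⟩
  exact Nat.sInf_mem this

lemma k1_le (N k : ℕ) (hk : ∃ g, G g = true ∧ N ≤ lv σ G k [g]) : k1 σ G N ≤ k :=
  Nat.sInf_le hk

lemma k1_le_k0 (h : CaseI u σ G ρ M) (N : ℕ) : k1 σ G N ≤ k0 σ G N :=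
  k1_le N _ ⟨u 0, h.start, h.k0_spec N _ h.start⟩

lemma k0_mono (h : CaseI u σ G ρ M) {m n : ℕ} (hmn : m ≤ n) : k0 σ G m ≤ k0 σ G n :=
  k0_le m _ (fun g hg => hmn.trans (h.k0_spec n g hg))

lemma k1_mono (h : CaseI u σ G ρ M) {m n : ℕ} (hmn : m ≤ n) : k1 σ G m ≤ k1 σ G n := by
  obtain ⟨g, hg, hg2⟩ := h.k1_spec n
  exact k1_le m _ ⟨g, hg, hmn.trans hg2⟩

lemma k0_double (h : CaseI u σ G ρ M) {m n : ℕ} (hmn : n ≤ 2 * m) : k0 σ G n ≤ k0 σ G m + 1 := by
  apply k0_le
  intro g hg
  have h1 := h.k0_spec m g hg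
  have h2 := h.lv_ge 1 (k0 σ G m) [g]
  rw [Nat.add_comm] at h2
  omega

lemma k1_double (h : CaseI u σ G ρ M) {m n : ℕ} (hmn : n ≤ 2 * m) : k1 σ G n ≤ k1 σ G m + 1 := by
  obtain ⟨g, hg, hg2⟩ := h.k1_spec m
  apply k1_le
  refine ⟨g, hg, ?_⟩
  have h2 := h.lv_ge 1 (k1 σ G m) [g]
  rw [Nat.add_comm] at h2
  omega

lemma KK_le_of (h : CaseI u σ G ρ M) {m n : ℕ} (hmn : m ≤ n) (h2 : n ≤ 2 * m) :
    KK σ G n ≤ KK σ G m + 1 := by
  unfold KK
  have h3 := h.k0_double h2
  have h4 := h.k1_mono hmn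
  omega

lemma KK_le_of' (h : CaseI u σ G ρ M) {m n : ℕ} (hmn : m ≤ n) (h2 : n ≤ 2 * m) :
    KK σ G m ≤ KK σ G n + 1 := by
  unfold KK
  have h3 := h.k0_mono hmn
  have h4 := h.k1_double h2
  omega

/-- bounded representation of a left part -/
lemma left_trunc (h : CaseI u σ G ρ M) {N : ℕ} {Z p : List α} (hZ : Fac u Z)
    (hp : p <:+ itw σ (k0 σ G N) Z) (hpN : p.length ≤ N) :
    ∃ z, z <:+ Z ∧ z.length ≤ ρ + 1 ∧ p <:+ itw σ (k0 σ G N) z := by
  by_cases hG : ∃ c ∈ Z, G c = true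
  · obtain ⟨Z₁, g, y, rfl, hg, hy⟩ := exists_last (fun c => G c = true) Z hG
    have hyl : y.length ≤ ρ := h.runs y (hZ.of_infix ⟨Z₁ ++ [g], [], by simp⟩)
      (fun c hc => by simpa using hy c hc)
    refine ⟨g :: y, ⟨Z₁, rfl⟩, by simp; omega, ?_⟩
    apply List.suffix_of_suffix_length_le hp
    · exact itw_suffix σ _ ⟨Z₁, rfl⟩
    · have h1 := h.k0_spec N g hg
      have h2 : lv σ G (k0 σ G N) [g] ≤ (itw σ (k0 σ G N) [g]).length := List.countP_le_length
      rw [itw_cons, List.length_append]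
      omega
  · push Not at hG
    refine ⟨Z, List.suffix_rfl, ?_, hp⟩
    have := h.runs Z hZ (fun c hc => by simpa using hG c hc)
    omega

lemma right_trunc (h : CaseI u σ G ρ M) {N : ℕ} {Z p : List α} (hZ : Fac u Z)
    (hp : p <+: itw σ (k0 σ G N) Z) (hpN : p.length ≤ N) :
    ∃ z, z <+: Z ∧ z.length ≤ ρ + 1 ∧ p <+: itw σ (k0 σ G N) z := by
  by_cases hG : ∃ c ∈ Z, G c = true
  · obtain ⟨y, g, Z₁, rfl, hg, hy⟩ := exists_first (fun c => G c = true) Z hG
    have hyl : y.length ≤ ρ := h.runs y (hZ.of_infix ⟨[], g :: Z₁, by simp⟩)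
      (fun c hc => by simpa using hy c hc)
    refine ⟨y ++ [g], ⟨Z₁, by simp⟩, by simp; omega, ?_⟩
    apply List.prefix_of_prefix_length_le hp
    · exact itw_prefix σ _ ⟨Z₁, by simp⟩
    · have h1 := h.k0_spec N g hg
      have h2 : lv σ G (k0 σ G N) [g] ≤ (itw σ (k0 σ G N) [g]).length := List.countP_le_length
      rw [itw_append, List.length_append]
      omega
  · push Not at hG
    refine ⟨Z, List.prefix_rfl, ?_, hp⟩
    have := h.runs Z hZ (fun c hc => by simpa using hG c hc)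
    omega

/-- bounded representation at a bounded level -/
lemma level_trunc (h : CaseI u σ G ρ M) (N : ℕ) (hN : ρ + 2 ≤ N) {w : List α} (hw : Fac u w)
    (hwN : w.length = N) : ∃ k, k ≤ k0 σ G N ∧ k1 σ G N ≤ k + (2 * ρ + 3) ∧
      ∃ z z' p q, w = p ++ q ∧ p ≠ [] ∧ q ≠ [] ∧ p <:+ itw σ k z ∧ q <+: itw σ k z' ∧
        Fac u (z ++ z') ∧ z.length ≤ M + ρ + 1 ∧ z'.length ≤ M + ρ + 1 := by
  obtain ⟨k, d, x₁, x₂, p, q, e1, e2, hp0, hq0, hp, hq⟩ := h.gen.level hw (by omega)
  have hfd : Fac u (x₁ ++ x₂) := by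
    have := h.gen.fac_img (h.gen.fac_letter d)
    rwa [img_singleton, e1] at this
  have hlen : x₁.length + x₂.length ≤ M := by
    have := h.hM d
    rw [e1, List.length_append] at this
    exact this
  rcases Nat.le_total k (k0 σ G N) with hk | hk
  · refine ⟨k, hk, ?_, x₁, x₂, p, q, e2, hp0, hq0, hp, hq, hfd, by omega, by omega⟩
    -- size of level
    have h1 : w <:+: itw σ (k + 1) [d] := by
      rw [itw_succ, img_singleton, e1, e2, itw_append]
      exact infix_append_of hp hq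
    have h2 : N ≤ (itw σ (k + 1) [d]).length := by rw [← hwN]; exact h1.length_le
    have h3 : (itw σ (k + 1) [d]).length ≤ (ρ + 1) * (lv σ G (k + 1) [d] + 1) :=
      h.len_le (h.gen.fac_itw_letter d (k + 1))
    have h4 : 1 ≤ lv σ G (k + 1) [d] := by
      by_contra hcon
      have : lv σ G (k + 1) [d] = 0 := by omega
      rw [this] at h3
      omega
    have h5 : G d = true := by
      by_contra hG
      have : lv σ G (k + 1) [d] = 0 := h.lv_free _ (by simpa using hG)
      omega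
    apply k1_le
    refine ⟨d, h5, ?_⟩
    have h6 := h.lv_ge (2 * ρ + 2) (k + 1) [d]
    have h7 : 2 * ρ + 2 ≤ 2 ^ (2 * ρ + 2) := (Nat.lt_two_pow_self).le
    have e : 2 * ρ + 2 + (k + 1) = k + (2 * ρ + 3) := by ring
    rw [e] at h6
    calc N ≤ (ρ + 1) * (lv σ G (k + 1) [d] + 1) := h2.trans h3
      _ ≤ (2 * ρ + 2) * lv σ G (k + 1) [d] := by nlinarith
      _ ≤ 2 ^ (2 * ρ + 2) * lv σ G (k + 1) [d] := Nat.mul_le_mul_right _ h7
      _ ≤ _ := h6
  · -- truncate
    obtain ⟨j, rfl⟩ := Nat.exists_eq_add_of_le hk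
    rw [itw_add] at hp hq
    have hfj : Fac u (itw σ j x₁ ++ itw σ j x₂) := by
      rw [← itw_append]; exact h.gen.fac_itw hfd j
    have hpl : p.length + q.length = N := by rw [← hwN, e2, List.length_append]
    obtain ⟨z, z1, z2, z3⟩ := h.left_trunc (hfj.of_infix ⟨[], itw σ j x₂, by simp⟩) hp (by omega)
    obtain ⟨z', z1', z2', z3'⟩ := h.right_trunc (hfj.of_infix ⟨itw σ j x₁, [], by simp⟩) hq (by omega)
    refine ⟨k0 σ G N, le_rfl, ?_, z, z', p, q, e2, hp0, hq0, z3, z3', ?_, by omega, by omega⟩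
    · have := h.k1_le_k0 N
      omega
    · exact hfj.of_infix (infix_append_of z1 z1')

/-- upper bound for the complexity -/
theorem pc_upper [Fintype α] (h : CaseI u σ G ρ M) : ∃ D, ∀ N, ρ + 2 ≤ N →
    pc u N ≤ D * (N * (KK σ G N + 1)) := by
  classical
  set W := wordsLe α (M + ρ + 1) with hW
  refine ⟨(2 * ρ + 4) * (W.card * W.card) , fun N hN => ?_⟩
  rw [pc_eq_ncard, Set.ncard_eq_toFinset_card _ (FacN_finite u N)]
  have hle : (FacN_finite u N).toFinset.card ≤
      ((Finset.Icc (k1 σ G N - (2 * ρ + 3)) (k0 σ G N)) ×ˢ (W ×ˢ W) ×ˢ Finset.range N).card := by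
    apply Finset.card_le_card_of_forall_subsingleton
      (fun w (x : ℕ × (List α × List α) × ℕ) => w.length = N ∧ ∃ p q, w = p ++ q ∧ p.length = x.2.2 ∧
        p <:+ itw σ x.1 x.2.1.1 ∧ q <+: itw σ x.1 x.2.1.2)
    · intro w hw
      rw [Set.Finite.mem_toFinset] at hw
      obtain ⟨k, hk0, hk1, z, z', p, q, e, hp0, hq0, hp, hq, -, hz, hz'⟩ := h.level_trunc N hN hw.2 hw.1
      refine ⟨(k, (z, z'), p.length), ?_, hw.1, p, q, e, rfl, hp, hq⟩
      simp only [Finset.mem_product, Finset.mem_Icc, Finset.mem_range]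
      refine ⟨⟨by omega, hk0⟩, ⟨mem_wordsLe.2 hz, mem_wordsLe.2 hz'⟩, ?_⟩
      have h1 : 0 < q.length := List.length_pos_iff.2 hq0
      have h2 : w.length = p.length + q.length := by rw [e, List.length_append]
      have := hw.1
      omega
    · rintro ⟨k, ⟨z, z'⟩, m⟩ -
      rintro w₁ ⟨-, hl₁, p₁, q₁, e₁, m₁, hp₁, hq₁⟩ w₂ ⟨-, hl₂, p₂, q₂, e₂, m₂, hp₂, hq₂⟩
      simp only at m₁ m₂ hp₁ hp₂ hq₁ hq₂
      have a1 : p₁ = p₂ := by
        rw [← suf_eq_of_suffix hp₁ m₁, ← suf_eq_of_suffix hp₂ m₂]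
      have l1 : q₁.length = N - m := by
        rw [← hl₁, e₁, List.length_append]; omega
      have l2 : q₂.length = N - m := by
        rw [← hl₂, e₂, List.length_append]; omega
      have a2 : q₁ = q₂ := by
        rw [← take_eq_of_prefix hq₁ l1, ← take_eq_of_prefix hq₂ l2]
      rw [e₁, e₂, a1, a2]
  refine hle.trans ?_
  simp only [Finset.card_product, Nat.card_Icc, Finset.card_range]
  have hKK : k0 σ G N + 1 - (k1 σ G N - (2 * ρ + 3)) ≤ (2 * ρ + 4) * (KK σ G N + 1) := by
    unfold KK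
    have := h.k1_le_k0 N
    set A := k0 σ G N
    set B := k1 σ G N
    have h1 : A + 1 - (B - (2 * ρ + 3)) ≤ (A - B) + (2 * ρ + 4) := by omega
    have h2 : (A - B) + (2 * ρ + 4) ≤ (2 * ρ + 4) * (A - B + 1) := by nlinarith [Nat.zero_le (A - B)]
    exact h1.trans h2
  calc _ ≤ ((2 * ρ + 4) * (KK σ G N + 1)) * ((W.card * W.card) * N) := Nat.mul_le_mul_right _ hKK
    _ = _ := by ring

/-- upper bound for the number of right special factors -/
theorem rs_upper [Fintype α] (h : CaseI u σ G ρ M) : ∃ D, ∀ n, ρ + 6 ≤ n →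
    (RS u n).ncard ≤ D * (KK σ G (n + 1) + 1) := by
  classical
  obtain ⟨T, hT⟩ := h.lemmaT (2 * (M + ρ + 1))
  set m₁ := M + ρ + 1 with hm₁
  set W := wordsLe α (m₁ + T + 1) with hW
  refine ⟨(2 * (12 * 4 + 1) + (12 * 4 + 1) ^ 2) * ((2 * ρ + 4) * (W.card * W.card * (W.card * W.card))),
    fun n hn => ?_⟩
  set N := n + 1 with hN
  rw [Set.ncard_eq_toFinset_card _ (RS_finite u n)]
  -- index set
  set I := (Finset.Icc (k1 σ G N - (2 * ρ + 3)) (k0 σ G N)) ×ˢ ((W ×ˢ W) ×ˢ (W ×ˢ W)) with hI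
  have hbound := pairs_lemma (ι := ℕ × (List α × List α) × (List α × List α)) n 4 (by omega)
    (RS_finite u n).toFinset (by
      intro w hw
      rw [Set.Finite.mem_toFinset] at hw
      exact hw.1) I
    (fun x => suf N (itw σ x.1 x.2.1.1) ++ (itw σ x.1 x.2.1.2).take N)
    (fun x => suf N (itw σ x.1 x.2.2.1) ++ (itw σ x.1 x.2.2.2).take N)
    (by
      intro x _
      rw [List.length_append, suf_length, List.length_take]
      have h1 : min N (itw σ x.1 x.2.1.1).length ≤ N := min_le_left _ _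
      have h2 : min N (itw σ x.1 x.2.1.2).length ≤ N := min_le_left _ _
      omega)
    (by
      intro x _
      rw [List.length_append, suf_length, List.length_take]
      have h1 : min N (itw σ x.1 x.2.2.1).length ≤ N := min_le_left _ _
      have h2 : min N (itw σ x.1 x.2.2.2).length ≤ N := min_le_left _ _
      omega)
    (by
      intro w hw
      rw [Set.Finite.mem_toFinset] at hw
      obtain ⟨hwn, a, b, hab, ha, hb⟩ := hw
      -- key : one-sided statement
      have key : ∀ (a b : α), a ≠ b → ∀ (k k' : ℕ) (z z' p q y y' r s : List α), k ≤ k' →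
          k ≤ k0 σ G N → k1 σ G N ≤ k + (2 * ρ + 3) →
          w ++ [a] = p ++ q → p ≠ [] → q ≠ [] → p <:+ itw σ k z → q <+: itw σ k z' →
          z.length ≤ m₁ → z'.length ≤ m₁ →
          w ++ [b] = r ++ s → r ≠ [] → s ≠ [] → r <:+ itw σ k' y → s <+: itw σ k' y' →
          Fac u (y ++ y') → ∃ i ∈ I, ∃ a b, a ≠ b ∧
            (w ++ [a]) <:+: suf N (itw σ i.1 i.2.1.1) ++ (itw σ i.1 i.2.1.2).take N ∧
            (w ++ [b]) <:+: suf N (itw σ i.1 i.2.2.1) ++ (itw σ i.1 i.2.2.2).take N := by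
        intro a b hab k k' z z' p q y y' r s hkk hk0 hk1 e1 hp0 hq0 hp hq hz hz' e2 hr0 hs0 hr hs hyf
        obtain ⟨j, rfl⟩ := Nat.exists_eq_add_of_le hkk
        rw [itw_add] at hr hs
        rw [itw_eq_flatMap σ k] at hr hs
        obtain ⟨x, c, r', f1, f2, f3, f4⟩ := min_suf hr0 hr
        obtain ⟨x', c', s', g1, g2, g3, g4⟩ := min_pre hs0 hs
        rw [← itw_eq_flatMap] at f3 g3
        have hfj : Fac u (itw σ j y ++ itw σ j y') := by
          rw [← itw_append]; exact h.gen.fac_itw hyf j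
        have hxx : Fac u (x ++ x') := by
          apply hfj.of_infix
          apply infix_append_of
          · exact (List.suffix_cons c x).trans f1
          · exact (List.prefix_append x' [c']).trans g1
        have hww : w = r' ++ itw σ k (x ++ x') ++ s'.dropLast := by
          have : w ++ [b] = (r' ++ itw σ k (x ++ x')) ++ s' := by
            rw [e2, f3, g3, itw_append]; simp
          exact append_dropLast_of this g2
        have hwz : w <:+: itw σ k (z ++ z') := by
          rw [append_dropLast_of e1 hq0, itw_append]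
          exact infix_append_of hp ((List.dropLast_prefix q).trans hq)
        have hxT : (x ++ x').length ≤ T := by
          apply hT k w (z ++ z') hwz (by rw [List.length_append]; omega) _ hxx
          rw [hww]
          exact ⟨r', s'.dropLast, rfl⟩
        rw [List.length_append] at hxT
        refine ⟨(k, (z, z'), (c :: x, x' ++ [c'])), ?_, a, b, hab, ?_, ?_⟩
        · simp only [hI, Finset.mem_product, Finset.mem_Icc]
          refine ⟨⟨by omega, hk0⟩, ⟨mem_wordsLe.2 (by omega), mem_wordsLe.2 (by omega)⟩,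
            mem_wordsLe.2 ?_, mem_wordsLe.2 ?_⟩
          · rw [List.length_cons]; omega
          · rw [List.length_append, List.length_singleton]; omega
        · simp only
          have hl : p.length + q.length = N := by
            rw [← List.length_append, ← e1]; simp [hwn, hN]
          rw [e1]
          exact infix_append_of (suffix_suf hp (by omega)) (prefix_take hq (by omega))
        · simp only
          have hl : r.length + s.length = N := by
            rw [← List.length_append, ← e2]; simp [hwn, hN]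
          rw [e2]
          apply infix_append_of
          · apply suffix_suf _ (by omega)
            rw [f3, itw_cons]
            obtain ⟨t, ht⟩ := f4
            exact ⟨t, by rw [← List.append_assoc, ht]⟩
          · apply prefix_take _ (by omega)
            rw [g3, itw_append]
            exact (List.prefix_append_right_inj _).2 g4
      obtain ⟨k, hk0, hk1, z, z', p, q, e1, hp0, hq0, hp, hq, hf, hz, hz'⟩ :=
        h.level_trunc N (by omega) ha (by simp [hwn, hN])
      obtain ⟨l, hl0, hl1, y, y', r, s, e2, hr0, hs0, hr, hs, hyf, hy, hy'⟩ :=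
        h.level_trunc N (by omega) hb (by simp [hwn, hN])
      rcases Nat.le_total k l with hkl | hkl
      · exact key a b hab k l z z' p q y y' r s hkl hk0 hk1 e1 hp0 hq0 hp hq hz hz' e2 hr0 hs0 hr hs hyf
      · exact key b a hab.symm l k y y' r s z z' p q hkl hl0 hl1 e2 hr0 hs0 hr hs hy hy' e1 hp0 hq0
          hp hq hf)
  refine hbound.trans ?_
  have hKK : k0 σ G N + 1 - (k1 σ G N - (2 * ρ + 3)) ≤ (2 * ρ + 4) * (KK σ G N + 1) := by
    unfold KK
    have := h.k1_le_k0 N
    set A := k0 σ G N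
    set B := k1 σ G N
    have h1 : A + 1 - (B - (2 * ρ + 3)) ≤ (A - B) + (2 * ρ + 4) := by omega
    have h2 : (A - B) + (2 * ρ + 4) ≤ (2 * ρ + 4) * (A - B + 1) := by nlinarith [Nat.zero_le (A - B)]
    exact h1.trans h2
  have hIc : I.card ≤ ((2 * ρ + 4) * (KK σ G N + 1)) * ((W.card * W.card) * (W.card * W.card)) := by
    rw [hI]
    simp only [Finset.card_product, Nat.card_Icc]
    exact Nat.mul_le_mul_right _ hKK
  calc _ ≤ _ := Nat.mul_le_mul_left _ hIc
    _ = _ := by ring

end CaseI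

end Pool.Agent.H89.Mor
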