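import Pool.Agent.H89.Mor.Base

set_option autoImplicit false

namespace Pool.Agent.H89.Mor

variable {α : Type}

lemma pieces_aux (P : α → Bool) (T : ℕ) : ∀ (w acc : List α), (∀ c ∈ acc, P c = false) →
    (∀ v, v <:+: acc ++ w → (∀ c ∈ v, P c = false) → v.length ≤ T) →
    (acc ++ w).length ≤ w.countP P + (w.countP P + 1) * T := by
  intro w
  induction w with
  | nil =>
    intro acc hacc h
    have := h acc ⟨[], [], by simp⟩ hacc
    simpa using this
  | cons a w ih =>
    intro acc hacc h
    by_cases ha : P a = true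
    · have h1 := h acc ⟨[], a :: w, by simp⟩ hacc
      have h2 := ih [] (by simp) (fun v hv hvP => h v (by
        obtain ⟨s, t, hst⟩ := hv
        refine ⟨acc ++ a :: s, t, ?_⟩
        simp only [List.nil_append] at hst
        rw [← hst]; simp) hvP)
      rw [List.countP_cons_of_pos ha]
      simp only [List.nil_append] at h2
      simp only [List.length_append, List.length_cons]
      nlinarith
    · have ha' : P a = false := by simpa using ha
      have h2 := ih (acc ++ [a]) (by
        intro c hc
        rcases List.mem_append.1 hc with hc | hc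
        · exact hacc c hc
        · rw [List.mem_singleton] at hc; rw [hc]; exact ha') (fun v hv hvP => h v (by simpa using hv) hvP)
      rw [List.countP_cons_of_neg (by simp [ha'])]
      simpa using h2

lemma pieces (P : α → Bool) (T : ℕ) (w : List α)
    (h : ∀ v, v <:+: w → (∀ c ∈ v, P c = false) → v.length ≤ T) :
    w.length ≤ w.countP P + (w.countP P + 1) * T := by
  simpa using pieces_aux P T w [] (by simp) (by simpa using h)

lemma exists_last (P : α → Prop) (w : List α) (h : ∃ c ∈ w, P c) :
    ∃ w₁ g y, w = w₁ ++ g :: y ∧ P g ∧ ∀ c ∈ y, ¬ P c := by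
  classical
  induction w with
  | nil => simp at h
  | cons a w ih =>
    by_cases h' : ∃ c ∈ w, P c
    · obtain ⟨w₁, g, y, h1, h2, h3⟩ := ih h'
      exact ⟨a :: w₁, g, y, by rw [h1]; rfl, h2, h3⟩
    · push Not at h'
      obtain ⟨c, hc, hP⟩ := h
      rcases List.mem_cons.1 hc with rfl | hc
      · exact ⟨[], c, w, rfl, hP, h'⟩
      · exact absurd hP (h' c hc)

lemma exists_first (P : α → Prop) (w : List α) (h : ∃ c ∈ w, P c) :
    ∃ y g w₂, w = y ++ g :: w₂ ∧ P g ∧ ∀ c ∈ y, ¬ P c := by
  classical
  induction w with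
  | nil => simp at h
  | cons a w ih =>
    by_cases ha : P a
    · exact ⟨[], a, w, rfl, ha, by simp⟩
    · have h' : ∃ c ∈ w, P c := by
        obtain ⟨c, hc, hP⟩ := h
        rcases List.mem_cons.1 hc with rfl | hc
        · exact absurd hP ha
        · exact ⟨c, hc, hP⟩
      obtain ⟨y, g, w₂, h1, h2, h3⟩ := ih h'
      refine ⟨a :: y, g, w₂, by rw [h1]; rfl, h2, ?_⟩
      intro c hc
      rcases List.mem_cons.1 hc with rfl | hc
      · exact ha
      · exact h3 c hc

lemma min_pre {f : α → List α} : ∀ {l q : List α}, q ≠ [] → q <+: l.flatMap f →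
    ∃ x c r, x ++ [c] <+: l ∧ r ≠ [] ∧ q = x.flatMap f ++ r ∧ r <+: f c := by
  intro l
  induction l with
  | nil =>
    intro q hq h
    simp at h
    exact absurd h hq
  | cons a l ih =>
    intro q hq h
    rw [List.flatMap_cons] at h
    by_cases hlen : q.length ≤ (f a).length
    · exact ⟨[], a, q, by simp, hq, by simp,
        List.prefix_of_prefix_length_le h (List.prefix_append _ _) hlen⟩
    · push Not at hlen
      have h1 : f a <+: q := List.prefix_of_prefix_length_le (List.prefix_append _ _) h hlen.le
      obtain ⟨q', rfl⟩ := h1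
      have hq' : q' ≠ [] := by
        intro h0; rw [h0] at hlen; simp at hlen
      have h2 : q' <+: l.flatMap f := (List.prefix_append_right_inj _).1 h
      obtain ⟨x, c, r, e1, e2, e3, e4⟩ := ih hq' h2
      refine ⟨a :: x, c, r, ?_, e2, ?_, e4⟩
      · simpa using (List.prefix_cons_inj a).2 e1
      · rw [e3, List.flatMap_cons, List.append_assoc]

lemma min_suf {f : α → List α} {l p : List α} (hp : p ≠ []) (h : p <:+ l.flatMap f) :
    ∃ x c r, c :: x <:+ l ∧ r ≠ [] ∧ p = r ++ x.flatMap f ∧ r <:+ f c := by
  have h1 : p.reverse <+: (l.reverse).flatMap (fun c => (f c).reverse) := by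
    have : (l.flatMap f).reverse = (l.reverse).flatMap (fun c => (f c).reverse) := by
      rw [List.reverse_flatMap]; rfl
    rw [← this]; exact List.reverse_prefix.2 h
  obtain ⟨x, c, r, e1, e2, e3, e4⟩ := min_pre (by simpa using hp) h1
  refine ⟨x.reverse, c, r.reverse, ?_, by simpa using e2, ?_, ?_⟩
  · rw [← List.reverse_prefix]; simpa using e1
  · have : p = (p.reverse).reverse := by simp
    rw [this, e3, List.reverse_append]
    congr 1
    rw [List.reverse_flatMap]
    congr 1
    funext c
    simp
  · rw [← List.reverse_prefix]; simpa using e4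

/-- the last `N` letters -/
def suf (N : ℕ) (l : List α) : List α := l.drop (l.length - N)

lemma suf_length (N : ℕ) (l : List α) : (suf N l).length = min N l.length := by
  simp [suf]; omega

lemma suf_suffix (N : ℕ) (l : List α) : suf N l <:+ l := List.drop_suffix _ _

lemma suffix_suf {N : ℕ} {p l : List α} (h : p <:+ l) (hN : p.length ≤ N) : p <:+ suf N l := by
  apply List.suffix_of_suffix_length_le h (suf_suffix N l)
  rw [suf_length]
  exact le_min hN h.length_le

lemma prefix_take {N : ℕ} {p l : List α} (h : p <+: l) (hN : p.length ≤ N) : p <+: l.take N := by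
  apply List.prefix_of_prefix_length_le h (List.take_prefix N l)
  rw [List.length_take]
  exact le_min hN h.length_le

lemma suf_eq_of_suffix {N : ℕ} {p l : List α} (h : p <:+ l) (hN : p.length = N) : suf N l = p := by
  have h1 := suffix_suf h hN.le
  have : (suf N l).length ≤ p.length := by rw [suf_length, hN]; exact min_le_left _ _
  exact (h1.eq_of_length_le this).symm

lemma take_eq_of_prefix {N : ℕ} {p l : List α} (h : p <+: l) (hN : p.length = N) : l.take N = p := by
  have h1 := prefix_take h hN.le
  have : (l.take N).length ≤ p.length := by rw [List.length_take, hN]; exact min_le_left _ _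
  exact (h1.eq_of_length_le this).symm

section fin
variable [Fintype α]

/-- all words of length at most `m` -/
noncomputable def wordsLe (α : Type) [Fintype α] (m : ℕ) : Finset (List α) :=
  (List.finite_length_le α m).toFinset

lemma mem_wordsLe {m : ℕ} {w : List α} : w ∈ wordsLe α m ↔ w.length ≤ m := by
  unfold wordsLe
  rw [Set.Finite.mem_toFinset]
  rfl

lemma exists_len_bound (σ : α → List α) : ∃ M, 1 ≤ M ∧ ∀ a, (σ a).length ≤ M := by
  refine ⟨1 + Finset.univ.sup (fun a => (σ a).length), by omega, fun a => ?_⟩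
  have := Finset.le_sup (f := fun a => (σ a).length) (Finset.mem_univ a)
  omega

end fin

lemma exists_uniform_bound {ι : Type} [Finite ι] (P : ι → ℕ → Prop) :
    ∃ J, ∀ i, (∃ j, P i j) → ∃ j ≤ J, P i j := by
  classical
  have := Fintype.ofFinite ι
  have h : ∀ i, ∃ J, (∃ j, P i j) → ∃ j ≤ J, P i j := by
    intro i
    by_cases hi : ∃ j, P i j
    · obtain ⟨j, hj⟩ := hi
      exact ⟨j, fun _ => ⟨j, le_rfl, hj⟩⟩
    · exact ⟨0, fun h => absurd h hi⟩
  choose J hJ using h
  refine ⟨Finset.univ.sup J, fun i hi => ?_⟩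
  obtain ⟨j, hj, hP⟩ := hJ i hi
  exact ⟨j, hj.trans (Finset.le_sup (Finset.mem_univ i)), hP⟩

lemma infix_append_of {p q l₁ l₂ : List α} (hp : p <:+ l₁) (hq : q <+: l₂) : p ++ q <:+: l₁ ++ l₂ := by
  obtain ⟨a, rfl⟩ := hp
  obtain ⟨b, rfl⟩ := hq
  exact ⟨a, b, by simp⟩

lemma append_dropLast_of {w p q : List α} {b : α} (h : w ++ [b] = p ++ q) (hq : q ≠ []) :
    w = p ++ q.dropLast := by
  have h1 : (w ++ [b]).dropLast = w := by simp
  rw [← h1, h, List.dropLast_append_of_ne_nil hq]

end Pool.Agent.H89.Mor
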